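import Pool.Agent.H719R4.Base

open Set

namespace Pool.Agent.H719R4
namespace Alg

/-- the field -/
abbrev K2 := RatFunc (ZMod 2)

instance : Countable (Polynomial (ZMod 2)) := by
  rw [← Cardinal.mk_le_aleph0_iff]
  refine Polynomial.cardinalMk_le_max.trans ?_
  rw [max_le_iff]
  exact ⟨Cardinal.mk_le_aleph0_iff.2 inferInstance, le_rfl⟩

instance : Countable K2 := by
  have : Function.Surjective (fun p : Polynomial (ZMod 2) × Polynomial (ZMod 2) =>
      algebraMap (Polynomial (ZMod 2)) K2 p.1 / algebraMap (Polynomial (ZMod 2)) K2 p.2) := by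
    intro z
    obtain ⟨x, y, -, h⟩ := IsFractionRing.div_surjective (Polynomial (ZMod 2)) z
    exact ⟨(x, y), h⟩
  exact this.countable

lemma two_eq (w : K2) : w + w = 0 := by
  have h : (algebraMap (ZMod 2) K2) 2 = 2 := map_ofNat _ 2
  have h2 : (2 : ZMod 2) = 0 := by decide
  rw [h2, map_zero] at h
  rw [← two_mul, ← h, zero_mul]

lemma neg_eq (w : K2) : -w = w := neg_eq_of_add_eq_zero_left (two_eq w)

abbrev SL := Matrix.SpecialLinearGroup (Fin 2) K2

/-- elementary matrices -/
noncomputable def e (b : Bool) (w : K2) : SL :=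
  if b then ⟨!![1, w; 0, 1], by simp⟩ else ⟨!![1, 0; w, 1], by simp⟩

lemma sl_ext {g h : SL} (h00 : g.1 0 0 = h.1 0 0) (h01 : g.1 0 1 = h.1 0 1)
    (h10 : g.1 1 0 = h.1 1 0) (h11 : g.1 1 1 = h.1 1 1) : g = h := by
  apply Subtype.ext
  ext i j
  fin_cases i <;> fin_cases j
  · exact h00
  · exact h01
  · exact h10
  · exact h11

lemma mul_ij (g h : SL) (i j : Fin 2) :
    (g * h).1 i j = g.1 i 0 * h.1 0 j + g.1 i 1 * h.1 1 j := by
  change (g.1 * h.1) i j = _
  rw [Matrix.mul_apply, Fin.sum_univ_two]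

lemma et00 (w : K2) : (e true w).1 0 0 = 1 := rfl
lemma et01 (w : K2) : (e true w).1 0 1 = w := rfl
lemma et10 (w : K2) : (e true w).1 1 0 = 0 := rfl
lemma et11 (w : K2) : (e true w).1 1 1 = 1 := rfl
lemma ef00 (w : K2) : (e false w).1 0 0 = 1 := rfl
lemma ef01 (w : K2) : (e false w).1 0 1 = 0 := rfl
lemma ef10 (w : K2) : (e false w).1 1 0 = w := rfl
lemma ef11 (w : K2) : (e false w).1 1 1 = 1 := rfl
lemma o00 : (1 : SL).1 0 0 = 1 := rfl
lemma o01 : (1 : SL).1 0 1 = 0 := rfl
lemma o10 : (1 : SL).1 1 0 = 0 := rfl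
lemma o11 : (1 : SL).1 1 1 = 1 := rfl

lemma e_add (b : Bool) (w w' : K2) : e b (w + w') = e b w * e b w' := by
  cases b <;> apply sl_ext <;>
    simp only [mul_ij, et00, et01, et10, et11, ef00, ef01, ef10, ef11] <;> ring

lemma e_zero (b : Bool) : e b 0 = 1 := by
  cases b <;> apply sl_ext <;>
    simp only [mul_ij, et00, et01, et10, et11, ef00, ef01, ef10, ef11, o00, o01, o10, o11]

/-- the group -/
abbrev HH := SL × Multiplicative K2

instance : Countable SL := by
  have : Function.Injective (fun (g : SL) (i j : Fin 2) => g.1 i j) := by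
    intro g g' h
    apply Subtype.ext
    ext i j
    exact congrFun (congrFun h i) j
  exact this.countable

instance : Countable (Multiplicative K2) := inferInstanceAs (Countable K2)

instance : Countable HH := inferInstance

noncomputable def al (h : HH) : K2 := Multiplicative.toAdd h.2

noncomputable def s (b : Bool) (w : K2) : HH := (e b w, Multiplicative.ofAdd w)

lemma s_add (b : Bool) (w w' : K2) : s b (w + w') = s b w * s b w' := by
  ext1
  · exact e_add b w w'
  · rfl

lemma s_sq (b : Bool) (w : K2) : s b w * s b w = 1 := by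
  rw [← s_add, two_eq]
  ext1
  · exact e_zero b
  · rfl

/-- word product -/
noncomputable def wp (l : List (Bool × K2)) : HH := (l.map fun p => s p.1 p.2).prod

lemma wp_append (l l' : List (Bool × K2)) : wp (l ++ l') = wp l * wp l' := by
  simp [wp]

lemma wp_cons (p : Bool × K2) (l : List (Bool × K2)) : wp (p :: l) = s p.1 p.2 * wp l := by
  simp [wp]

lemma wp_nil : wp [] = 1 := by simp [wp]

lemma wp_reverse (l : List (Bool × K2)) : wp l * wp l.reverse = 1 := by
  induction l with
  | nil => simp [wp]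
  | cons p l ih =>
    rw [List.reverse_cons, wp_append, wp_cons, wp_cons, wp_nil, mul_one, mul_assoc,
      ← mul_assoc (wp l), ih, one_mul, s_sq]

lemma det_eq (g : SL) : g.1 0 0 * g.1 1 1 + g.1 0 1 * g.1 1 0 = 1 := by
  have h := g.2
  rw [Matrix.det_fin_two, sub_eq_add_neg, neg_eq] at h
  exact h

lemma three (g : SL) (hc : g.1 1 0 ≠ 0) : ∃ x y z : K2,
    g = e true x * e false y * e true z := by
  refine ⟨(g.1 0 0 + 1) / g.1 1 0, g.1 1 0, (g.1 1 1 + 1) / g.1 1 0, ?_⟩
  have hd := det_eq g
  have h1 : (2 : K2) = 0 := by rw [← two_eq 1]; ring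
  apply sl_ext <;> simp only [mul_ij, et00, et01, et10, et11, ef00, ef01, ef10, ef11]
  · field_simp
    linear_combination (-(g.1 1 0)) * h1
  · field_simp
    linear_combination (-1 : K2) * hd - (g.1 0 0 + g.1 1 1 + 2 - g.1 0 1 * g.1 1 0) * h1
  · ring
  · field_simp
    linear_combination (-(g.1 1 0)) * h1

lemma four (g : SL) : ∃ l : List (Bool × K2), l.length ≤ 4 ∧ (wp l).1 = g := by
  by_cases hc : g.1 1 0 = 0
  · have hd := det_eq g
    have hd1 : g.1 1 1 ≠ 0 := by
      intro h
      rw [hc, h] at hd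
      simp at hd
    obtain ⟨x, y, z, h⟩ := three (g * e false 1) (by
      simp only [mul_ij, ef00, ef10]
      rw [hc]
      simpa using hd1)
    refine ⟨[(true, x), (false, y), (true, z), (false, 1)], by simp, ?_⟩
    have h2 : g = e true x * e false y * e true z * e false 1 := by
      rw [← h, mul_assoc, ← e_add, two_eq, e_zero, mul_one]
    simp only [wp, List.map_cons, List.map_nil, List.prod_cons, List.prod_nil, mul_one,
      Prod.fst_mul, s]
    rw [h2]
    simp only [mul_assoc]
  · obtain ⟨x, y, z, h⟩ := three g hc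
    refine ⟨[(true, x), (false, y), (true, z)], by simp, ?_⟩
    simp only [wp, List.map_cons, List.map_nil, List.prod_cons, List.prod_nil, mul_one,
      Prod.fst_mul, s]
    rw [h]
    simp only [mul_assoc]

lemma X_ne : (RatFunc.X : K2) ≠ 0 := RatFunc.X_ne_zero

open Classical in
noncomputable abbrev v : Valuation K2 (WithZero (Multiplicative ℤ)) := RatFunc.inftyValuation (ZMod 2)

lemma v_X : 1 < v RatFunc.X := by
  unfold v
  rw [RatFunc.inftyValuation.X]
  decide +revert

lemma shift (t : K2) : ∃ l : List (Bool × K2), l.length ≤ 10 ∧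
    wp l = (1, Multiplicative.ofAdd t) := by
  have hX2 : (1 : K2) + RatFunc.X ^ 2 ≠ 0 := by
    intro h
    have h2 : (RatFunc.X : K2) ^ 2 = 1 := by
      have := neg_eq (1 : K2)
      rw [← this]
      linear_combination h
    have h3 : v ((RatFunc.X : K2) ^ 2) = 1 := by rw [h2, map_one]
    rw [map_pow] at h3
    have h4 : 1 < (v RatFunc.X) ^ 2 := one_lt_pow₀ v_X (by norm_num)
    rw [h3] at h4
    exact lt_irrefl _ h4
  set u := t / (1 + RatFunc.X ^ 2) with hu
  let Dm : SL := ⟨!![RatFunc.X, 0; 0, RatFunc.X⁻¹], by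
    rw [Matrix.det_fin_two_of, mul_inv_cancel₀ X_ne]; ring⟩
  obtain ⟨l, hl, hD⟩ := four Dm
  refine ⟨l ++ [(true, u)] ++ l.reverse ++ [(true, RatFunc.X ^ 2 * u)], ?_, ?_⟩
  · simp only [List.length_append, List.length_reverse, List.length_cons, List.length_nil]
    omega
  · have hrev : wp l.reverse = (wp l)⁻¹ := eq_inv_of_mul_eq_one_right (wp_reverse l)
    have hs : ∀ w, wp [(true, w)] = s true w := by
      intro w
      simp [wp]
    rw [wp_append, wp_append, wp_append, hrev, hs, hs]
    have hcomm : Dm * e true u = e true (RatFunc.X ^ 2 * u) * Dm := by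
      have d00 : Dm.1 0 0 = RatFunc.X := rfl
      have d01 : Dm.1 0 1 = 0 := rfl
      have d10 : Dm.1 1 0 = 0 := rfl
      have d11 : Dm.1 1 1 = RatFunc.X⁻¹ := rfl
      have hX := X_ne
      apply sl_ext <;> simp only [mul_ij, et00, et01, et10, et11, d00, d01, d10, d11]
      · ring
      · field_simp
        ring
      · ring
      · ring
    ext1
    · simp only [Prod.fst_mul, Prod.fst_inv, s, hD]
      rw [hcomm, mul_assoc, mul_assoc, ← mul_assoc Dm, mul_inv_cancel, one_mul, ← e_add, two_eq,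
        e_zero]
    · simp only [Prod.snd_mul, Prod.snd_inv, s]
      rw [mul_right_comm _ _ ((wp l).2)⁻¹, mul_inv_cancel, one_mul, ← ofAdd_add]
      congr 1
      rw [hu]
      field_simp

lemma gen24 (h : HH) : ∃ l : List (Bool × K2), l.length ≤ 24 ∧ wp l = h := by
  obtain ⟨l, hl, h1⟩ := four h.1
  obtain ⟨l', hl', h2⟩ := shift (Multiplicative.toAdd h.2 + Multiplicative.toAdd (wp l).2)
  refine ⟨l ++ l', by simp; omega, ?_⟩
  rw [wp_append, h2]
  ext1
  · simp [h1]
  · simp only [Prod.snd_mul, ofAdd_add, ofAdd_toAdd]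
    rw [mul_comm h.2, ← mul_assoc]
    have : (wp l).2 * (wp l).2 = 1 := two_eq (Multiplicative.toAdd (wp l).2)
    rw [this, one_mul]

end Alg
end Pool.Agent.H719R4
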