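import Pool.Agent.H719R4.Alg

open Set

namespace Pool.Agent.H719R4
namespace Alg

noncomputable def wd (h : HH) : List (Bool × K2) := (gen24 h).choose

lemma wd_len (h : HH) : (wd h).length ≤ 24 := (gen24 h).choose_spec.1
lemma wp_wd (h : HH) : wp (wd h) = h := (gen24 h).choose_spec.2

/-- enumeration of the field -/
noncomputable def en : ℕ → K2 := (exists_surjective_nat K2).choose
lemma en_surj : Function.Surjective en := (exists_surjective_nat K2).choose_spec

abbrev Sub := Submodule (ZMod 2) K2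

def lists (n : ℕ) (W : Sub) : Set (List (Bool × K2)) := {l | l.length ≤ n ∧ ∀ p ∈ l, p.2 ∈ W}

lemma lists_finite (n : ℕ) (W : Sub) (hW : Finite W) : (lists n W).Finite := by
  let f : List (Bool × W) → List (Bool × K2) := List.map (fun p => (p.1, (p.2 : K2)))
  refine ((List.finite_length_le (Bool × W) n).image f).subset ?_
  intro l hl
  obtain ⟨h1, h2⟩ := hl
  have : ∀ l : List (Bool × K2), (∀ p ∈ l, p.2 ∈ W) → ∃ l' : List (Bool × W), f l' = l := by
    intro l
    induction l with
    | nil => intro _; exact ⟨[], rfl⟩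
    | cons p l ih =>
      intro h
      obtain ⟨l', hl'⟩ := ih (fun q hq => h q (by simp [hq]))
      refine ⟨(p.1, ⟨p.2, h p (by simp)⟩) :: l', ?_⟩
      simp only [f, List.map_cons]
      simp only [f] at hl'
      rw [hl']
  obtain ⟨l', hl'⟩ := this l h2
  refine ⟨l', ?_, hl'⟩
  have : l'.length = l.length := by
    rw [← hl']
    simp [f]
  simp only [Set.mem_ofPred_eq]
  omega

def params (n : ℕ) (W : Sub) : Set K2 :=
  ⋃ l ∈ lists n W, {x | ∃ p ∈ wd (wp l), x = p.2}

lemma params_finite (n : ℕ) (W : Sub) (hW : Finite W) : (params n W).Finite := by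
  refine (lists_finite n W hW).biUnion fun l _ => ?_
  have : {x | ∃ p ∈ wd (wp l), x = p.2} = (Prod.snd : Bool × K2 → K2) '' {p | p ∈ wd (wp l)} := by
    ext x
    constructor
    · rintro ⟨p, hp, rfl⟩
      exact ⟨p, hp, rfl⟩
    · rintro ⟨p, hp, rfl⟩
      exact ⟨p, hp, rfl⟩
  rw [this]
  exact (List.finite_toSet _).image _

noncomputable def WW : ℕ → Sub
  | 0 => Submodule.span (ZMod 2) {RatFunc.X, RatFunc.X ^ 2}
  | k + 1 => WW k ⊔ Submodule.span (ZMod 2) ({en k} ∪ params (Lk k) (WW k))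

lemma WW_succ (k : ℕ) :
    WW (k + 1) = WW k ⊔ Submodule.span (ZMod 2) ({en k} ∪ params (Lk k) (WW k)) := rfl

lemma WW_zero : WW 0 = Submodule.span (ZMod 2) {RatFunc.X, RatFunc.X ^ 2} := rfl

lemma span_fin (S : Set K2) (hS : S.Finite) : Finite (Submodule.span (ZMod 2) S) := by
  haveI := Module.Finite.span_of_finite (ZMod 2) hS
  exact Module.finite_of_finite (ZMod 2)

lemma WW_fin (k : ℕ) : Finite (WW k) := by
  induction k with
  | zero =>
    rw [WW_zero]
    exact span_fin _ (by simp)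
  | succ k ih =>
    haveI := ih
    haveI : Finite (Submodule.span (ZMod 2) ({en k} ∪ params (Lk k) (WW k))) :=
      span_fin _ ((Set.finite_singleton _).union (params_finite _ _ ih))
    haveI : Module.Finite (ZMod 2) (WW k) := Module.Finite.of_finite
    haveI : Module.Finite (ZMod 2)
      (Submodule.span (ZMod 2) ({en k} ∪ params (Lk k) (WW k))) := Module.Finite.of_finite
    have : Module.Finite (ZMod 2) (WW (k + 1)) := by
      rw [WW_succ]
      exact Submodule.finite_sup _ _
    exact Module.finite_of_finite (ZMod 2)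

lemma WW_mono : Monotone WW := monotone_nat_of_le_succ fun k => by
  rw [WW_succ]
  exact le_sup_left

lemma WW_en (k : ℕ) : en k ∈ WW (k + 1) := by
  rw [WW_succ]
  exact Submodule.mem_sup_right (Submodule.subset_span (Or.inl rfl))

lemma WW_params (k : ℕ) {x : K2} (hx : x ∈ params (Lk k) (WW k)) : x ∈ WW (k + 1) := by
  rw [WW_succ]
  exact Submodule.mem_sup_right (Submodule.subset_span (Or.inr hx))

lemma exists_pr (W : Sub) : ∃ g : K2 →+ K2, (∀ x, g x ∈ W) ∧ ∀ x ∈ W, g x = x := by
  obtain ⟨g, hg⟩ := LinearMap.exists_leftInverse_of_injective W.subtype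
    (LinearMap.ker_eq_bot.2 W.injective_subtype)
  refine ⟨(W.subtype.comp g).toAddMonoidHom, fun x => (g x).2, fun x hx => ?_⟩
  have := LinearMap.congr_fun hg ⟨x, hx⟩
  simp only [LinearMap.comp_apply, Submodule.subtype_apply, LinearMap.id_apply] at this
  simp only [LinearMap.toAddMonoidHom_coe, LinearMap.comp_apply, Submodule.subtype_apply]
  rw [this]

noncomputable def prr (k : ℕ) : K2 →+ K2 := (exists_pr (WW k)).choose

noncomputable def bet (i : Bool) : K2 := if i then RatFunc.X ^ 2 else RatFunc.X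

lemma v_bet (i : Bool) : 1 < v (bet i) := by
  cases i
  · exact v_X
  · change 1 < v (RatFunc.X ^ 2)
    rw [map_pow]
    exact one_lt_pow₀ v_X (by norm_num)

lemma v_bet_inj {i j : Bool} (h : v (bet i) = v (bet j)) : i = j := by
  have h1 : v (RatFunc.X ^ 2 : K2) ≠ v (RatFunc.X : K2) := by
    rw [map_pow, sq]
    have := mul_lt_mul_of_pos_right v_X (lt_trans zero_lt_one v_X)
    rw [one_mul] at this
    exact this.ne'
  cases i <;> cases j
  · rfl
  · exact absurd h.symm h1
  · exact absurd h h1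
  · rfl

open Classical in
noncomputable def dir (g : SL) : Bool := if v (g.1 1 1) ≤ v (g.1 1 0) then true else false

noncomputable def Ph (p : HH × Bool) : HH := p.1 * s (dir p.1.1) (bet p.2)

lemma Ph_true {h : HH} {i : Bool} (hd : dir h.1 = true) :
    v ((Ph (h, i)).1.1 1 1) = v (bet i) * v ((Ph (h, i)).1.1 1 0) ∧
      v ((Ph (h, i)).1.1 1 0) ≠ 0 := by
  have hle : v (h.1.1 1 1) ≤ v (h.1.1 1 0) := by
    by_contra hc
    simp [dir, hc] at hd
  have hne : h.1.1 1 0 ≠ 0 := by
    intro h0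
    rw [h0, map_zero] at hle
    have h1 : h.1.1 1 1 = 0 := by
      have := le_antisymm hle zero_le
      exact (v.map_eq_zero_iff).1 this
    have := det_eq h.1
    rw [h0, h1] at this
    simp at this
  have hvne : v (h.1.1 1 0) ≠ 0 := (v.ne_zero_iff).2 hne
  have e1 : (Ph (h, i)).1.1 1 0 = h.1.1 1 0 := by
    simp only [Ph, hd, Prod.fst_mul, s, mul_ij, et00, et10]
    ring
  have e2 : (Ph (h, i)).1.1 1 1 = h.1.1 1 0 * bet i + h.1.1 1 1 := by
    simp only [Ph, hd, Prod.fst_mul, s, mul_ij, et01, et11]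
    ring
  rw [e1, e2]
  refine ⟨?_, hvne⟩
  rw [v.map_add_eq_of_lt_left, map_mul, mul_comm]
  rw [map_mul]
  refine lt_of_le_of_lt hle ?_
  have := mul_lt_mul_of_pos_left (v_bet i) (zero_lt_iff.2 hvne)
  rwa [mul_one] at this

lemma Ph_false {h : HH} {i : Bool} (hd : dir h.1 = false) :
    v ((Ph (h, i)).1.1 1 0) = v (bet i) * v ((Ph (h, i)).1.1 1 1) ∧
      v ((Ph (h, i)).1.1 1 1) ≠ 0 := by
  have hlt : v (h.1.1 1 0) < v (h.1.1 1 1) := by
    by_contra hc
    simp [dir, not_lt.1 hc] at hd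
  have hvne : v (h.1.1 1 1) ≠ 0 := (lt_of_le_of_lt zero_le hlt).ne'
  have e1 : (Ph (h, i)).1.1 1 1 = h.1.1 1 1 := by
    simp only [Ph, hd, Prod.fst_mul, s, mul_ij, ef01, ef11]
    ring
  have e2 : (Ph (h, i)).1.1 1 0 = h.1.1 1 0 + h.1.1 1 1 * bet i := by
    simp only [Ph, hd, Prod.fst_mul, s, mul_ij, ef00, ef10]
    ring
  rw [e1, e2]
  refine ⟨?_, hvne⟩
  rw [v.map_add_eq_of_lt_right, map_mul, mul_comm]
  rw [map_mul]
  refine lt_trans hlt ?_
  have := mul_lt_mul_of_pos_left (v_bet i) (zero_lt_iff.2 hvne)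
  rwa [mul_one] at this

lemma Ph_dir {h : HH} {i : Bool} : dir h.1 = true ↔
    v ((Ph (h, i)).1.1 1 0) < v ((Ph (h, i)).1.1 1 1) := by
  constructor
  · intro hd
    obtain ⟨h1, h2⟩ := Ph_true (i := i) hd
    rw [h1]
    have := mul_lt_mul_of_pos_right (v_bet i) (zero_lt_iff.2 h2)
    rwa [one_mul] at this
  · intro hlt
    by_contra hd
    rw [Bool.not_eq_true] at hd
    obtain ⟨h1, h2⟩ := Ph_false (i := i) hd
    rw [h1] at hlt
    have := mul_lt_mul_of_pos_right (v_bet i) (zero_lt_iff.2 h2)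
    rw [one_mul] at this
    exact lt_asymm hlt this

lemma Ph_inj : Function.Injective Ph := by
  rintro ⟨h, i⟩ ⟨h', i'⟩ he
  have hdir : dir h.1 = dir h'.1 := by
    rw [Bool.eq_iff_iff, Ph_dir (i := i), Ph_dir (i := i'), he]
  have hi : i = i' := by
    rcases hb : dir h.1 with _ | _
    · obtain ⟨h1, h2⟩ := Ph_false (i := i) hb
      obtain ⟨h3, h4⟩ := Ph_false (i := i') (hdir ▸ hb)
      rw [he] at h1
      rw [h1] at h3
      exact v_bet_inj (mul_right_cancel₀ h4 h3)
    · obtain ⟨h1, h2⟩ := Ph_true (i := i) hb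
      obtain ⟨h3, h4⟩ := Ph_true (i := i') (hdir ▸ hb)
      rw [he] at h1
      rw [h1] at h3
      exact v_bet_inj (mul_right_cancel₀ h4 h3)
  subst hi
  unfold Ph at he
  simp only at he
  rw [hdir] at he
  rw [mul_right_cancel he]

lemma bet_ne (i : Bool) : bet i ≠ 0 := by
  intro h
  have := v_bet i
  rw [h, map_zero] at this
  exact not_lt_zero this

open Classical in
/-- the concrete data -/
noncomputable def DD : Dat HH K2 where
  al := al
  al_mul x y := rfl
  s := s
  s_add := s_add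
  al_s b w := rfl
  two := two_eq
  W k := (WW k).toAddSubgroup
  Wfin k := WW_fin k
  Wmono i j h := WW_mono h
  pr := prr
  pr_mem k x := (exists_pr (WW k)).choose_spec.1 x
  pr_id k x hx := (exists_pr (WW k)).choose_spec.2 x hx
  B := {bet true, bet false}
  Bsub x hx := by
    simp only [Finset.mem_insert, Finset.mem_singleton] at hx
    change x ∈ WW 0
    rw [WW_zero]
    rcases hx with rfl | rfl
    · exact Submodule.subset_span (Or.inr rfl)
    · exact Submodule.subset_span (Or.inl rfl)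
  Bcard := Finset.card_le_two
  shorten k l hl hlW := by
    refine ⟨wd (wp l), wd_len _, ?_, wp_wd _⟩
    intro p hp
    refine WW_params k (mem_biUnion (x := l) ⟨hl, hlW⟩ ⟨p, hp, rfl⟩)
  gen h := by
    have : ∀ l : List (Bool × K2), ∃ k, ∀ p ∈ l, p.2 ∈ WW k := by
      intro l
      induction l with
      | nil => exact ⟨0, by simp⟩
      | cons p l ih =>
        obtain ⟨k, hk⟩ := ih
        obtain ⟨j, hj⟩ := en_surj p.2
        refine ⟨max k (j + 1), fun q hq => ?_⟩
        rcases List.mem_cons.1 hq with rfl | hq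
        · exact WW_mono (le_max_right _ _) (hj ▸ WW_en j)
        · exact WW_mono (le_max_left _ _) (hk q hq)
    obtain ⟨k, hk⟩ := this (wd h)
    exact ⟨k, wd h, hk, wp_wd h⟩
  Ph := Ph
  Ph_inj := Ph_inj
  Ph_adj p := ⟨dir p.1.1, bet p.2, by rcases p.2 with _ | _ <;> simp, bet_ne _, rfl⟩

end Alg
end Pool.Agent.H719R4
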