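import Mathlib

open MeasureTheory ProbabilityTheory Set
open scoped ENNReal NNReal

namespace Pool.Agent.H719R4

/-- word length bound at scale `k` -/
def Lk (k : ℕ) : ℕ := (2 ^ (k + 2)) ^ 14

structure Dat (H F : Type) [Group H] [AddCommGroup F] where
  al : H → F
  al_mul : ∀ x y, al (x * y) = al x + al y
  s : Bool → F → H
  s_add : ∀ b w w', s b (w + w') = s b w * s b w'
  al_s : ∀ b w, al (s b w) = w
  two : ∀ w : F, w + w = 0
  W : ℕ → AddSubgroup F
  Wfin : ∀ k, Finite (W k)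
  Wmono : Monotone W
  pr : ℕ → F →+ F
  pr_mem : ∀ k x, pr k x ∈ W k
  pr_id : ∀ k, ∀ x ∈ W k, pr k x = x
  B : Finset F
  Bsub : ∀ x ∈ B, x ∈ W 0
  Bcard : B.card ≤ 2
  shorten : ∀ k, ∀ l : List (Bool × F), l.length ≤ Lk k → (∀ p ∈ l, p.2 ∈ W k) →
    ∃ l' : List (Bool × F), l'.length ≤ 24 ∧ (∀ p ∈ l', p.2 ∈ W (k + 1)) ∧
      (l'.map fun p => s p.1 p.2).prod = (l.map fun p => s p.1 p.2).prod
  gen : ∀ h : H, ∃ k, ∃ l : List (Bool × F), (∀ p ∈ l, p.2 ∈ W k) ∧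
      (l.map fun p => s p.1 p.2).prod = h
  Ph : H × Bool → H
  Ph_inj : Function.Injective Ph
  Ph_adj : ∀ p, ∃ b, ∃ β ∈ B, β ≠ 0 ∧ Ph p = p.1 * s b β

/-- vertex set -/
abbrev VV (H : Type) := H × Multiplicative (ℤ × ℤ)

variable {H F : Type} [Group H] [AddCommGroup F]

def lev (x : VV H) : ℤ × ℤ := Multiplicative.toAdd x.2

def lv (m : ℤ × ℤ) : VV H := (1, Multiplicative.ofAdd m)

def em (h : H) : VV H := (h, 1)

@[simp] lemma lev_mul (x y : VV H) : lev (x * y) = lev x + lev y := rfl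
@[simp] lemma lev_one : lev (1 : VV H) = 0 := rfl
@[simp] lemma lev_lv (m : ℤ × ℤ) : lev (lv m : VV H) = m := rfl
@[simp] lemma lev_em (h : H) : lev (em h) = 0 := rfl
@[simp] lemma lev_inv (x : VV H) : lev x⁻¹ = - lev x := rfl
@[simp] lemma lv_fst (m : ℤ × ℤ) : (lv m : VV H).1 = 1 := rfl
@[simp] lemma em_fst (h : H) : (em h).1 = h := rfl
lemma em_mul (h h' : H) : em (h * h') = em h * em h' := rfl
lemma lv_add (m m' : ℤ × ℤ) : (lv (m + m') : VV H) = lv m * lv m' := by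
  ext <;> simp [lv]

lemma lv_comm (m : ℤ × ℤ) (x : VV H) : lv m * x = x * lv m := by
  ext <;> simp [lv, mul_comm, add_comm]

lemma dec (x : VV H) : x = em x.1 * lv (lev x) := by
  ext <;> simp [lv, em, lev]

/-- environments -/
abbrev Env (F : Type) := ℕ × (ℤ × ℤ) → Option F

def U : Finset (ℤ × ℤ) := {(1, 0), (-1, 0), (0, 1), (0, -1)}

namespace Dat

variable (D : Dat H F)

lemma al_one : D.al 1 = 0 := by
  have := D.al_mul 1 1
  simpa using this

lemma s_zero (b : Bool) : D.s b 0 = 1 := by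
  have := D.s_add b 0 0
  simpa using this

lemma s_sq (b : Bool) (w : F) : D.s b w * D.s b w = 1 := by
  rw [← D.s_add, D.two, D.s_zero]

lemma s_inv (b : Bool) (w : F) : (D.s b w)⁻¹ = D.s b w :=
  inv_eq_of_mul_eq_one_left (D.s_sq b w)

/-- hub edges at scale `k` -/
def HE (ω : Env F) (k : ℕ) (x y : VV H) : Prop :=
  ∃ b, ∃ w ∈ D.W k, y = x * em (D.s b w) ∧
    ∃ θ, ω (k, lev x) = some θ ∧ (D.pr k (D.al x.1) = D.pr k θ ∨ D.pr k (D.al y.1) = D.pr k θ)

def base (x y : VV H) : Prop :=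
  (∃ b, ∃ β ∈ D.B, y = x * em (D.s b β)) ∨ ∃ u ∈ U, y = x * lv u

lemma HE_symm {ω : Env F} {k : ℕ} {x y : VV H} (h : D.HE ω k x y) : D.HE ω k y x := by
  obtain ⟨b, w, hw, rfl, θ, h1, h2⟩ := h
  refine ⟨b, w, hw, ?_, θ, ?_, h2.symm⟩
  · rw [mul_assoc, ← em_mul, D.s_sq]
    simp [em]
  · simpa using h1

lemma U_neg {u : ℤ × ℤ} (h : u ∈ U) : -u ∈ U := by
  simp only [U, Finset.mem_insert, Finset.mem_singleton] at h ⊢
  rcases h with rfl | rfl | rfl | rfl <;> simp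

lemma base_symm {x y : VV H} (h : D.base x y) : D.base y x := by
  rcases h with ⟨b, β, hβ, rfl⟩ | ⟨u, hu, rfl⟩
  · left
    refine ⟨b, β, hβ, ?_⟩
    rw [mul_assoc, ← em_mul, D.s_sq]
    simp [em]
  · right
    refine ⟨-u, U_neg hu, ?_⟩
    rw [mul_assoc, ← lv_add]
    simp [lv]

/-- the graph -/
def Gr (ω : Env F) : SimpleGraph (VV H) where
  Adj x y := x ≠ y ∧ (D.base x y ∨ ∃ k, D.HE ω k x y)
  symm := ⟨fun x y h => ⟨h.1.symm, h.2.imp D.base_symm (fun ⟨k, hk⟩ => ⟨k, D.HE_symm hk⟩)⟩⟩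
  loopless := ⟨fun x h => h.1 rfl⟩

/-- action of translations on environments -/
def tau (v : VV H) (ω : Env F) : Env F :=
  fun i => (ω (i.1, i.2 - lev v)).map (· + D.pr i.1 (D.al v.1))

lemma pr_pr (k : ℕ) (x : F) : D.pr k (D.pr k x) = D.pr k x := D.pr_id k _ (D.pr_mem k x)

lemma HE_tau (ω : Env F) (k : ℕ) (v x y : VV H) :
    D.HE (D.tau v ω) k (v * x) (v * y) ↔ D.HE ω k x y := by
  unfold HE
  refine exists_congr fun b => exists_congr fun w => and_congr_right fun hw => ?_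
  rw [mul_assoc, mul_right_inj]
  refine and_congr_right fun hy => ?_
  subst hy
  have e1 : D.tau v ω (k, lev (v * x)) = (ω (k, lev x)).map (· + D.pr k (D.al v.1)) := by
    simp [tau]
  rw [e1]
  constructor
  · rintro ⟨θ, h1, h2⟩
    rw [Option.map_eq_some_iff] at h1
    obtain ⟨θ', h3, rfl⟩ := h1
    refine ⟨θ', h3, ?_⟩
    simp only [Prod.fst_mul, D.al_mul, map_add, D.pr_pr] at h2 ⊢
    rcases h2 with h2 | h2
    · left
      rw [add_comm] at h2
      exact add_right_cancel h2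
    · right
      rw [add_comm] at h2
      exact add_right_cancel h2
  · rintro ⟨θ, h1, h2⟩
    refine ⟨θ + D.pr k (D.al v.1), by simp [h1], ?_⟩
    simp only [Prod.fst_mul, D.al_mul, map_add, D.pr_pr] at h2 ⊢
    rcases h2 with h2 | h2
    · left
      rw [h2, add_comm]
    · right
      rw [h2, add_comm]

lemma base_mul (v x y : VV H) : D.base (v * x) (v * y) ↔ D.base x y := by
  unfold base
  simp only [mul_assoc, mul_right_inj]

lemma Gr_tau (ω : Env F) (v x y : VV H) :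
    (D.Gr (D.tau v ω)).Adj (v * x) (v * y) ↔ (D.Gr ω).Adj x y := by
  simp only [Gr, ne_eq, mul_right_inj, base_mul, HE_tau]

end Dat

end Pool.Agent.H719R4
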