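import Pool.Agent.H719R4.Base

open Set

namespace Pool.Agent.H719R4

def Wi {V : Type} (G : SimpleGraph V) (d : ℕ) (x y : V) : Prop := ∃ p : G.Walk x y, p.length ≤ d

section
variable {V : Type} {G : SimpleGraph V}

lemma Wi.refl (x : V) (d : ℕ) : Wi G d x x := ⟨SimpleGraph.Walk.nil, by simp⟩

lemma Wi.trans {d e : ℕ} {x y z : V} (h : Wi G d x y) (h' : Wi G e y z) : Wi G (d + e) x z := by
  obtain ⟨p, hp⟩ := h
  obtain ⟨q, hq⟩ := h'
  exact ⟨p.append q, by rw [SimpleGraph.Walk.length_append]; omega⟩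

lemma Wi.adj {x y : V} (h : G.Adj x y) : Wi G 1 x y := ⟨h.toWalk, by simp⟩

lemma Wi.mono {d e : ℕ} {x y : V} (h : Wi G d x y) (hde : d ≤ e) : Wi G e x y := by
  obtain ⟨p, hp⟩ := h
  exact ⟨p, hp.trans hde⟩

lemma Wi.dist_le {d : ℕ} {x y : V} (h : Wi G d x y) : G.dist x y ≤ d := by
  obtain ⟨p, hp⟩ := h
  exact (SimpleGraph.dist_le p).trans hp

lemma Wi.reach {d : ℕ} {x y : V} (h : Wi G d x y) : G.Reachable x y := by
  obtain ⟨p, hp⟩ := h
  exact ⟨p⟩
end

/-- one norm on levels -/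
def n1 (m : ℤ × ℤ) : ℕ := m.1.natAbs + m.2.natAbs

variable {H F : Type} [Group H] [AddCommGroup F]

namespace Dat
variable (D : Dat H F)

lemma adj_lv (ω : Env F) (x : VV H) {u : ℤ × ℤ} (hu : u ∈ U) : (D.Gr ω).Adj x (x * lv u) := by
  refine ⟨?_, Or.inl (Or.inr ⟨u, hu, rfl⟩)⟩
  intro h
  have h2 : lev x = lev x + u := by
    conv_lhs => rw [h]
    simp
  have h3 : u = 0 := by simpa using h2
  subst h3
  simp [U, Prod.ext_iff] at hu

lemma Wi_lv_nat (ω : Env F) (x : VV H) {u : ℤ × ℤ} (hu : u ∈ U) (n : ℕ) :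
    Wi (D.Gr ω) n x (x * lv (n • u)) := by
  induction n with
  | zero =>
    have e : (lv (0 • u) : VV H) = 1 := by ext <;> simp [lv]
    rw [e, mul_one]
    exact Wi.refl x 0
  | succ n ih =>
    have h1 := ih.trans (Wi.adj (D.adj_lv ω (x * lv (n • u)) hu))
    rw [mul_assoc, ← lv_add, ← succ_nsmul] at h1
    exact h1

lemma Wi_lv (ω : Env F) (x : VV H) (m : ℤ × ℤ) : Wi (D.Gr ω) (n1 m) x (x * lv m) := by
  obtain ⟨a, b⟩ := m
  have h1 : Wi (D.Gr ω) a.natAbs x (x * lv (a, 0)) := by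
    rcases Int.natAbs_eq a with h | h
    · have := D.Wi_lv_nat ω x (u := (1, 0)) (by simp [U]) a.natAbs
      convert this using 3
      ext <;> simp [← h]
    · have := D.Wi_lv_nat ω x (u := (-1, 0)) (by simp [U]) a.natAbs
      convert this using 3
      ext
      · simp only [Prod.smul_mk, smul_neg, nsmul_eq_mul, mul_one]
        exact h
      · simp
  have h2 : Wi (D.Gr ω) b.natAbs (x * lv (a, 0)) (x * lv (a, 0) * lv (0, b)) := by
    rcases Int.natAbs_eq b with h | h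
    · have := D.Wi_lv_nat ω (x * lv (a, 0)) (u := (0, 1)) (by simp [U]) b.natAbs
      convert this using 3
      ext <;> simp [← h]
    · have := D.Wi_lv_nat ω (x * lv (a, 0)) (u := (0, -1)) (by simp [U]) b.natAbs
      convert this using 3
      ext
      · simp
      · simp only [Prod.smul_mk, smul_neg, nsmul_eq_mul, mul_one]
        exact h
  have h3 := h1.trans h2
  rw [mul_assoc, ← lv_add] at h3
  simpa [n1] using h3

lemma Wi_HE {ω : Env F} {k : ℕ} {x y : VV H} (h : D.HE ω k x y) : Wi (D.Gr ω) 1 x y := by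
  by_cases hxy : x = y
  · subst hxy
    exact Wi.refl x 1
  · exact Wi.adj ⟨hxy, Or.inr ⟨k, h⟩⟩

lemma Wi_star {ω : Env F} {k : ℕ} {x : VV H} {θ : F} (h : ω (k, lev x) = some θ) (b : Bool)
    {w : F} (hw : w ∈ D.W k) : Wi (D.Gr ω) 2 x (x * em (D.s b w)) := by
  set r := D.pr k (D.al x.1) + D.pr k θ with hr
  have hrW : r ∈ D.W k := add_mem (D.pr_mem _ _) (D.pr_mem _ _)
  have hal : D.pr k (D.al (x * em (D.s b r)).1) = D.pr k θ := by
    rw [Prod.fst_mul, D.al_mul, em_fst, D.al_s, map_add, D.pr_id k r hrW, hr, ← add_assoc,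
      D.two, zero_add]
  have h1 : Wi (D.Gr ω) 1 x (x * em (D.s b r)) :=
    D.Wi_HE ⟨b, r, hrW, rfl, θ, h, Or.inr hal⟩
  have h2 : Wi (D.Gr ω) 1 (x * em (D.s b r)) (x * em (D.s b w)) := by
    refine D.Wi_HE (k := k) ⟨b, r + w, add_mem hrW hw, ?_, θ, ?_, Or.inl hal⟩
    · rw [mul_assoc, ← em_mul, ← D.s_add, ← add_assoc, D.two, zero_add]
    · simpa using h
  exact h1.trans h2

lemma Wi_word {ω : Env F} {k : ℕ} {θ : F} (l : List (Bool × F)) :
    ∀ {x : VV H}, ω (k, lev x) = some θ → (∀ p ∈ l, p.2 ∈ D.W k) →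
    Wi (D.Gr ω) (2 * l.length) x (x * em (l.map fun p => D.s p.1 p.2).prod) := by
  induction l with
  | nil =>
    intro x _ _
    have e : (em (List.map (fun p : Bool × F => D.s p.1 p.2) []).prod : VV H) = 1 := by
      ext <;> simp [em]
    rw [e, mul_one]
    exact Wi.refl x _
  | cons p l ih =>
    intro x h hl
    have h1 := D.Wi_star h p.1 (hl p (by simp))
    have h2 := ih (x := x * em (D.s p.1 p.2)) (by simpa using h)
      (fun q hq => hl q (by simp [hq]))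
    have h3 := h1.trans h2
    rw [mul_assoc, ← em_mul] at h3
    simp only [List.map_cons, List.prod_cons, List.length_cons]
    exact h3.mono (by omega)

lemma Wi_main {ω : Env F} {k : ℕ} {θ : F} {x : VV H} {c : ℤ × ℤ} (h : ω (k, lev x + c) = some θ)
    (l : List (Bool × F)) (hl : ∀ p ∈ l, p.2 ∈ D.W k) (m : ℤ × ℤ) :
    Wi (D.Gr ω) (n1 c + 2 * l.length + n1 (m - c)) x
      (x * em (l.map fun p => D.s p.1 p.2).prod * lv m) := by
  have h1 := D.Wi_lv ω x c
  have h2 := D.Wi_word (x := x * lv c) l (by simpa using h) hl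
  have h3 := D.Wi_lv ω (x * lv c * em (l.map fun p => D.s p.1 p.2).prod) (m - c)
  have h4 := (h1.trans h2).trans h3
  have e : x * lv c * em (l.map fun p => D.s p.1 p.2).prod * lv (m - c) =
      x * em (l.map fun p => D.s p.1 p.2).prod * lv m := by
    rw [mul_assoc x, lv_comm, ← mul_assoc, mul_assoc _ (lv c), ← lv_add]
    simp
  rwa [e] at h4

lemma conn {ω : Env F} (h : ∀ k, ∃ m, ω (k, m) ≠ none) : (D.Gr ω).Connected := by
  haveI : Nonempty (VV H) := ⟨1⟩
  refine SimpleGraph.Connected.mk fun x y => ?_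
  obtain ⟨k, l, hl, hprod⟩ := D.gen (x⁻¹ * y).1
  obtain ⟨m, hm⟩ := h k
  obtain ⟨θ, hθ⟩ := Option.ne_none_iff_exists'.1 hm
  have := D.Wi_main (x := x) (c := m - lev x) (by simpa using hθ) l hl (lev (x⁻¹ * y))
  rw [hprod, mul_assoc, ← dec, mul_inv_cancel_left] at this
  exact this.reach

/-- good step at scale `K` -/
def Good (K : ℕ) (x y : VV H) : Prop :=
  (∃ b, ∃ w ∈ D.W K, y = x * em (D.s b w)) ∨ ∃ u ∈ U, y = x * lv u

lemma Good_mul (K : ℕ) (v x y : VV H) : D.Good K (v * x) (v * y) ↔ D.Good K x y := by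
  unfold Good
  simp only [mul_assoc, mul_right_inj]

lemma good_of_HE {ω : Env F} {k K : ℕ} {x y : VV H} (h : D.HE ω k x y) (hk : k ≤ K) :
    D.Good K x y := by
  obtain ⟨b, w, hw, hy, -⟩ := h
  exact Or.inl ⟨b, w, D.Wmono hk hw, hy⟩

lemma good_of_base {K : ℕ} {x y : VV H} (h : D.base x y) : D.Good K x y := by
  rcases h with ⟨b, β, hβ, hy⟩ | h
  · exact Or.inl ⟨b, β, D.Wmono (Nat.zero_le K) (D.Bsub _ hβ), hy⟩
  · exact Or.inr h

/-- reachable in `n` good steps from the root -/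
def RK (K n : ℕ) (x : VV H) : Prop :=
  ∃ l : List (Bool × F), l.length ≤ n ∧ (∀ p ∈ l, p.2 ∈ D.W K) ∧
    (l.map fun p => D.s p.1 p.2).prod = x.1

lemma RK_one (K n : ℕ) : D.RK K n 1 := ⟨[], by simp, by simp, by simp⟩

lemma RK_step {K n : ℕ} {x y : VV H} (h : D.RK K n x) (hxy : D.Good K x y) :
    D.RK K (n + 1) y := by
  obtain ⟨l, hl, hlW, hx⟩ := h
  rcases hxy with ⟨b, w, hw, rfl⟩ | ⟨u, hu, rfl⟩
  · refine ⟨l ++ [(b, w)], by simp; omega, ?_, ?_⟩
    · intro p hp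
      rw [List.mem_append] at hp
      rcases hp with hp | hp
      · exact hlW p hp
      · simp only [List.mem_singleton] at hp
        subst hp
        exact hw
    · simp [hx]
  · refine ⟨l, by omega, hlW, ?_⟩
    simp [hx]

lemma dist_RK {ω : Env F} {K n : ℕ} {x : VV H} (h : D.RK K n x) (hn : n ≤ Lk K)
    {c : ℤ × ℤ} {N : ℕ} (hc : n1 c ≤ 2 * N) (hω : ω (K + 1, c) ≠ none) :
    (D.Gr ω).dist 1 x ≤ 48 + 4 * N + n1 (lev x) := by
  obtain ⟨l, hl, hlW, hx⟩ := h
  obtain ⟨l', hl', hlW', he⟩ := D.shorten K l (hl.trans hn) hlW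
  obtain ⟨θ, hθ⟩ := Option.ne_none_iff_exists'.1 hω
  have := D.Wi_main (x := 1) (c := c) (by simpa using hθ) l' hlW' (lev x)
  rw [he, hx, one_mul, ← dec] at this
  refine this.dist_le.trans ?_
  have h3 : n1 (lev x - c) ≤ n1 (lev x) + n1 c := by
    simp only [n1, Prod.fst_sub, Prod.snd_sub]
    omega
  omega

end Dat

end Pool.Agent.H719R4
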