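import Pool.Agent.H719R4.Walk
import Pool.Agent.H719R4.Geo

open MeasureTheory ProbabilityTheory Set
open scoped ENNReal NNReal

namespace Pool.Agent.H719R4

/-- squared norm of a level -/
def qq (m : ℤ × ℤ) : ℕ := m.1.natAbs ^ 2 + m.2.natAbs ^ 2

/-- squared norm of the level, as a function -/
noncomputable def qf {H : Type} (x : VV H) : ℝ≥0∞ := (qq (lev x) : ℝ≥0∞)

/-- constant conductance -/
def one {V : Type} : Sym2 V → ℝ≥0 := fun _ => 1

lemma n1_le (m : ℤ × ℤ) (t : ℕ) (ht : 1 ≤ t) :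
    (n1 m : ℝ≥0∞) ≤ (qq m : ℝ≥0∞) / t + 2 * t := by
  have h1 : n1 m * t ≤ qq m + 2 * t * t := by
    have h : ∀ a : ℕ, a * t ≤ a ^ 2 + t * t := by
      intro a
      rcases le_total a t with h | h <;> nlinarith
    have ha := h m.1.natAbs
    have hb := h m.2.natAbs
    unfold n1 qq
    nlinarith
  have ht0 : (t : ℝ≥0∞) ≠ 0 := by exact_mod_cast (by omega : t ≠ 0)
  have htt : (t : ℝ≥0∞) ≠ ⊤ := ENNReal.natCast_ne_top t
  have h2 : (n1 m : ℝ≥0∞) * t ≤ qq m + 2 * t * t := by exact_mod_cast h1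
  calc (n1 m : ℝ≥0∞) = (n1 m : ℝ≥0∞) * t / t := by
        rw [mul_div_assoc, ENNReal.div_self ht0 htt, mul_one]
    _ ≤ (qq m + 2 * t * t) / t := by gcongr
    _ = (qq m : ℝ≥0∞) / t + 2 * t := by
        rw [ENNReal.add_div, mul_div_assoc (2 * (t : ℝ≥0∞)), ENNReal.div_self ht0 htt, mul_one]

variable {H F : Type} [Group H] [AddCommGroup F]

namespace Dat
variable (D : Dat H F)

lemma Q_level (ω : Env F) (x : VV H) : Q (D.Gr ω) one qf x ≤ qf x + 1 := by
  classical
  unfold Q
  refine ENNReal.div_le_of_le_mul ?_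
  let T : Finset (VV H) := U.image (fun u => x * lv u)
  have hinj : Function.Injective (fun u : ℤ × ℤ => x * lv u) := by
    intro u u' h
    have h2 : lev (x * lv u) = lev (x * lv u') := by rw [show x * lv u = x * lv u' from h]
    simpa using h2
  let A' : VV H → ℝ≥0∞ := fun y => if (D.Gr ω).Adj x y ∧ y ∉ T then 1 else 0
  have hsplit : ∀ y, cnd (D.Gr ω) one x y = A' y + (if y ∈ T then 1 else 0) := by
    intro y
    unfold one
    rw [cnd_one]
    by_cases hy : y ∈ T
    · obtain ⟨u, hu, rfl⟩ := Finset.mem_image.1 hy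
      have := D.adj_lv ω x hu
      simp [A', hy, this]
    · simp [A', hy]
  have hsum : ∀ f : VV H → ℝ≥0∞, ∑' y, cnd (D.Gr ω) one x y * f y =
      ∑' y, A' y * f y + ∑ u ∈ U, f (x * lv u) := by
    intro f
    simp_rw [hsplit, add_mul]
    rw [ENNReal.tsum_add]
    congr 1
    rw [tsum_eq_sum (s := T) (fun y hy => by simp [hy]), Finset.sum_image (fun u _ u' _ h => hinj h)]
    refine Finset.sum_congr rfl fun u hu => ?_
    rw [if_pos (Finset.mem_image_of_mem _ hu), one_mul]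
  have hdeg : cdeg (D.Gr ω) one x = ∑' y, A' y + 4 := by
    have := hsum (fun _ => 1)
    simp only [mul_one] at this
    unfold cdeg
    rw [this]
    congr 1
    simp [U]
  have hA' : ∀ y, A' y * qf y = A' y * qf x := by
    intro y
    by_cases hy : (D.Gr ω).Adj x y ∧ y ∉ T
    · have : lev y = lev x := by
        obtain ⟨⟨hne, h⟩, hT⟩ := hy
        rcases h with (⟨b, β, hβ, rfl⟩ | ⟨u, hu, rfl⟩) | ⟨k, b, w, hw, rfl, -⟩
        · simp
        · exact absurd (Finset.mem_image_of_mem _ hu) hT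
        · simp
      unfold qf
      rw [this]
    · simp [A', hy]
  rw [hsum, hdeg]
  simp_rw [hA']
  rw [ENNReal.tsum_mul_right]
  have h4 : ∑ u ∈ U, qf (x * lv u) = 4 * qf x + 4 := by
    have : ∑ u ∈ U, qq (lev x + u) = 4 * qq (lev x) + 4 := by
      simp only [U]
      rw [Finset.sum_insert (by decide), Finset.sum_insert (by decide),
        Finset.sum_insert (by decide), Finset.sum_singleton]
      zify [qq]
      simp only [sq_abs, Prod.fst_add, Prod.snd_add]
      ring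
    unfold qf
    simp only [lev_mul, lev_lv]
    exact_mod_cast this
  rw [h4]
  calc (∑' y, A' y) * qf x + (4 * qf x + 4) ≤ (∑' y, A' y) * qf x + (4 * qf x + 4) + ∑' y, A' y :=
        le_self_add
    _ = (qf x + 1) * (∑' y, A' y + 4) := by ring

open Classical in
/-- number of bad edges at `x` -/
noncomputable def bd (K : ℕ) (ω : Env F) (x : VV H) : ℝ≥0∞ :=
  ∑' y, cnd (D.Gr ω) one x y * (if D.Good K x y then 0 else 1)

noncomputable def bb (K : ℕ) (ω : Env F) (x : VV H) : ℝ≥0∞ := D.bd K ω x / cdeg (D.Gr ω) one x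

theorem det_bound {ω : Env F} (hG : (D.Gr ω).Connected) {K n t : ℕ} {C : ℝ≥0∞}
    (hC : ∀ x : VV H, D.RK K n x → (D.Gr ω).dist 1 x ≤ n →
      ((D.Gr ω).dist 1 x : ℝ≥0∞) ≤ C + qf x / t) (j : ℕ) :
    ∀ (e : ℕ) (x : VV H), e + j = n → D.RK K e x → (D.Gr ω).dist 1 x ≤ e →
    wexp (D.Gr ω) one j (fun y => ((D.Gr ω).dist 1 y : ℝ≥0∞)) x ≤
      C + (qf x + j) / t + n * ∑ i ∈ Finset.range j, wexp (D.Gr ω) one i (D.bb K ω) x := by
  classical
  induction j with
  | zero =>
    intro e x he hR hd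
    simp only [add_zero] at he
    subst he
    simpa [wexp] using hC x hR hd
  | succ j ih =>
    intro e x he hR hd
    rw [wexp_succ]
    set dd : VV H → ℝ≥0∞ := fun y => ((D.Gr ω).dist 1 y : ℝ≥0∞) with hdd
    set S : VV H → ℝ≥0∞ := fun y => ∑ i ∈ Finset.range j, wexp (D.Gr ω) one i (D.bb K ω) y with hS
    set bad : VV H → ℝ≥0∞ := fun y => if D.Good K x y then 0 else 1 with hbad
    have hstep : ∀ y, (D.Gr ω).Adj x y → wexp (D.Gr ω) one j dd y ≤
        ((C + (j : ℝ≥0∞) / t) + (t : ℝ≥0∞)⁻¹ * qf y) + (n * S y + n * bad y) := by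
      intro y hy
      have hd' : (D.Gr ω).dist 1 y ≤ e + 1 := by
        have := hG.dist_triangle (u := 1) (v := x) (w := y)
        rw [(SimpleGraph.dist_eq_one_iff_adj).2 hy] at this
        omega
      by_cases hg : D.Good K x y
      · have := ih (e + 1) y (by omega) (D.RK_step hR hg) hd'
        refine this.trans (le_of_eq ?_)
        simp only [hbad, hg, if_true, mul_zero, add_zero, hS]
        rw [ENNReal.add_div, div_eq_mul_inv (qf y), mul_comm (qf y)]
        ring
      · have h1 := wexp_dist (c := one) hG 1 j y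
        have h2 : ((D.Gr ω).dist 1 y : ℝ≥0∞) + j ≤ n := by
          exact_mod_cast (by omega : (D.Gr ω).dist 1 y + j ≤ n)
        refine (h1.trans h2).trans ?_
        simp only [hbad, hg, if_false, mul_one]
        exact le_add_left le_add_self
    refine (Q_mono hstep).trans ?_
    rw [Q_add (fun y => (C + (j : ℝ≥0∞) / t) + (t : ℝ≥0∞)⁻¹ * qf y)
        (fun y => n * S y + n * bad y),
      Q_add (fun _ => C + (j : ℝ≥0∞) / t) (fun y => (t : ℝ≥0∞)⁻¹ * qf y),
      Q_add (fun y => n * S y) (fun y => n * bad y), Q_const_mul, Q_const_mul, Q_const_mul]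
    have e1 : Q (D.Gr ω) one (fun _ => C + (j : ℝ≥0∞) / t) x ≤ C + (j : ℝ≥0∞) / t := Q_const_le _ _
    have e2 : (t : ℝ≥0∞)⁻¹ * Q (D.Gr ω) one (fun y => qf y) x ≤ (t : ℝ≥0∞)⁻¹ * (qf x + 1) := by
      gcongr
      exact D.Q_level ω x
    have e3 : Q (D.Gr ω) one (fun y => S y) x =
        ∑ i ∈ Finset.range j, wexp (D.Gr ω) one (i + 1) (D.bb K ω) x := by
      rw [hS]
      exact Q_sum j (fun i y => wexp (D.Gr ω) one i (D.bb K ω) y) x
    have e4 : Q (D.Gr ω) one (fun y => bad y) x = wexp (D.Gr ω) one 0 (D.bb K ω) x := rfl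
    rw [e3, e4, Finset.sum_range_succ' _ j, mul_add]
    calc _ ≤ (C + (j : ℝ≥0∞) / t) + (t : ℝ≥0∞)⁻¹ * (qf x + 1) + _ := by gcongr
      _ = _ := by
        rw [ENNReal.add_div]
        push_cast
        rw [ENNReal.add_div, div_eq_mul_inv, div_eq_mul_inv, div_eq_mul_inv]
        ring

end Dat

end Pool.Agent.H719R4
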