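import Mathlib

open MeasureTheory ProbabilityTheory Set
open scoped ENNReal NNReal

namespace Pool.Agent.H719R4

section Walk
variable {V : Type}

open Classical in
/-- The conductance between `x` and `y`: it is `c {x, y}` if `x, y` are adjacent in `G`, and `0`
otherwise. -/
noncomputable def cnd (G : SimpleGraph V) (c : Sym2 V → ℝ≥0) (x y : V) : ℝ≥0∞ :=
  if G.Adj x y then (c s(x, y) : ℝ≥0∞) else 0

/-- Total conductance at `x`. For `c = 1` this is the degree. -/
noncomputable def cdeg (G : SimpleGraph V) (c : Sym2 V → ℝ≥0) (x : V) : ℝ≥0∞ := ∑' y, cnd G c x y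

/-- `wexp G c n f x` is the expectation of `f (X_n)` for the random walk with conductances `c`
started at `x`: the walk jumps from `x` to `y` with probability `cnd G c x y / cdeg G c x`. -/
noncomputable def wexp (G : SimpleGraph V) (c : Sym2 V → ℝ≥0) : ℕ → (V → ℝ≥0∞) → V → ℝ≥0∞
  | 0, f, x => f x
  | n + 1, f, x => (∑' y, cnd G c x y * wexp G c n f y) / cdeg G c x

/-- one step operator -/
noncomputable def Q (G : SimpleGraph V) (c : Sym2 V → ℝ≥0) (f : V → ℝ≥0∞) (x : V) : ℝ≥0∞ :=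
  (∑' y, cnd G c x y * f y) / cdeg G c x

variable {G : SimpleGraph V} {c : Sym2 V → ℝ≥0}

lemma wexp_succ (n : ℕ) (f : V → ℝ≥0∞) (x : V) :
    wexp G c (n + 1) f x = Q G c (wexp G c n f) x := rfl

lemma Q_mono {f g : V → ℝ≥0∞} {x : V} (h : ∀ y, G.Adj x y → f y ≤ g y) :
    Q G c f x ≤ Q G c g x := by
  unfold Q
  refine ENNReal.div_le_div_right (ENNReal.tsum_le_tsum fun y => ?_) _
  by_cases hy : G.Adj x y
  · gcongr
    exact h y hy
  · simp [cnd, hy]

lemma Q_add (f g : V → ℝ≥0∞) (x : V) :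
    Q G c (fun y => f y + g y) x = Q G c f x + Q G c g x := by
  unfold Q
  rw [← ENNReal.add_div, ← ENNReal.tsum_add]
  simp only [mul_add]

lemma Q_const_mul (a : ℝ≥0∞) (f : V → ℝ≥0∞) (x : V) :
    Q G c (fun y => a * f y) x = a * Q G c f x := by
  unfold Q
  rw [← mul_div_assoc, ← ENNReal.tsum_mul_left]
  congr 1
  refine tsum_congr fun y => ?_
  ring

lemma Q_const_le (a : ℝ≥0∞) (x : V) : Q G c (fun _ => a) x ≤ a := by
  unfold Q
  rw [ENNReal.tsum_mul_right]
  refine ENNReal.div_le_of_le_mul ?_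
  rw [mul_comm]
  rfl

lemma Q_sum (n : ℕ) (f : ℕ → V → ℝ≥0∞) (x : V) :
    Q G c (fun y => ∑ i ∈ Finset.range n, f i y) x = ∑ i ∈ Finset.range n, Q G c (f i) x := by
  induction n with
  | zero =>
    simp [Q]
  | succ n ih =>
    simp only [Finset.sum_range_succ]
    rw [Q_add, ih]

lemma cdeg_mul_Q_le (f : V → ℝ≥0∞) (x : V) :
    cdeg G c x * Q G c f x ≤ ∑' y, cnd G c x y * f y := by
  unfold Q
  exact ENNReal.mul_div_le

lemma wexp_dist (hG : G.Connected) (o : V) (n : ℕ) : ∀ x : V,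
    wexp G c n (fun y => (G.dist o y : ℝ≥0∞)) x ≤ G.dist o x + n := by
  induction n with
  | zero => intro x; simp [wexp]
  | succ n ih =>
    intro x
    rw [wexp_succ]
    refine (Q_mono (g := fun _ => (G.dist o x + (n + 1 : ℕ) : ℝ≥0∞)) fun y hy => ?_).trans
      (Q_const_le _ _)
    refine (ih y).trans ?_
    have h1 : G.dist o y ≤ G.dist o x + 1 := by
      have := hG.dist_triangle (u := o) (v := x) (w := y)
      rw [(SimpleGraph.dist_eq_one_iff_adj).2 hy] at this
      exact this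
    have h2 : (G.dist o y : ℝ≥0∞) ≤ G.dist o x + 1 := by exact_mod_cast h1
    calc (G.dist o y : ℝ≥0∞) + n ≤ (G.dist o x + 1) + n := by gcongr
      _ = G.dist o x + (n + 1 : ℕ) := by push_cast; ring

lemma cnd_one (x y : V) [Decidable (G.Adj x y)] :
    cnd G (fun _ => 1) x y = if G.Adj x y then 1 else 0 := by
  unfold cnd
  split_ifs <;> simp

end Walk

end Pool.Agent.H719R4
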