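import Pool.Agent.H719R4.Base
import Pool.Agent.H719R4.Walk

open MeasureTheory ProbabilityTheory Set
open scoped ENNReal NNReal

namespace Pool.Agent.H719R4

instance instOpt (F : Type) : MeasurableSpace (Option F) := ⊤
instance (F : Type) : DiscreteMeasurableSpace (Option F) := ⟨fun _ => trivial⟩

noncomputable def eta (k : ℕ) : ℝ≥0∞ := (((2 : ℝ≥0∞) ^ (k + 1)) ^ 16)⁻¹

lemma eta_le_one (k : ℕ) : eta k ≤ 1 := by
  unfold eta
  rw [ENNReal.inv_le_one]
  exact one_le_pow₀ (one_le_pow₀ (by norm_num))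

lemma eta_ne_zero (k : ℕ) : eta k ≠ 0 := by
  unfold eta
  rw [ne_eq, ENNReal.inv_eq_zero]
  exact ENNReal.pow_ne_top (ENNReal.pow_ne_top (by norm_num))

instance : Countable (Multiplicative (ℤ × ℤ)) := inferInstanceAs (Countable (ℤ × ℤ))

variable {H F : Type} [Group H] [AddCommGroup F]

namespace Dat

variable (D : Dat H F)

noncomputable def cw (k : ℕ) : ℝ≥0∞ := ((ENat.card (D.W k) : ℕ∞) : ℝ≥0∞)

lemma cw_eq (k : ℕ) : D.cw k = (Nat.card (D.W k) : ℝ≥0∞) := by
  haveI := D.Wfin k
  unfold cw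
  rw [ENat.card_eq_coe_natCard]
  simp

lemma cw_ne_zero (k : ℕ) : D.cw k ≠ 0 := by
  haveI := D.Wfin k
  rw [cw_eq]
  exact_mod_cast Nat.card_pos.ne'

lemma cw_ne_top (k : ℕ) : D.cw k ≠ ⊤ := by
  rw [cw_eq]
  exact ENNReal.natCast_ne_top _

noncomputable def nu (k : ℕ) : Measure (Option F) :=
  (1 - eta k) • Measure.dirac none +
    (eta k * (D.cw k)⁻¹) • Measure.sum (fun w : D.W k => Measure.dirac (some (w : F)))

lemma nu_apply (k : ℕ) (s : Set (Option F)) :
    D.nu k s = (1 - eta k) * s.indicator 1 none +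
      (eta k * (D.cw k)⁻¹) * ∑' w : D.W k, s.indicator 1 (some (w : F)) := by
  unfold nu
  rw [Measure.add_apply, Measure.smul_apply, Measure.smul_apply,
    Measure.sum_apply _ (MeasurableSet.of_discrete), Measure.dirac_apply' _ MeasurableSet.of_discrete]
  simp only [smul_eq_mul]
  congr 2
  refine tsum_congr fun w => ?_
  rw [Measure.dirac_apply' _ MeasurableSet.of_discrete]

instance nu_prob (k : ℕ) : IsProbabilityMeasure (D.nu k) := by
  constructor
  rw [nu_apply]
  simp only [indicator_univ, Pi.one_apply, mul_one]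
  rw [ENNReal.tsum_const, mul_one]
  change 1 - eta k + eta k * (D.cw k)⁻¹ * D.cw k = 1
  rw [mul_assoc, ENNReal.inv_mul_cancel (D.cw_ne_zero k) (D.cw_ne_top k), mul_one]
  exact tsub_add_cancel_of_le (eta_le_one k)

lemma nu_map (k : ℕ) (c : F) (hc : c ∈ D.W k) :
    (D.nu k).map (Option.map (· + c)) = D.nu k := by
  ext s hs
  rw [Measure.map_apply Measurable.of_discrete hs, nu_apply, nu_apply]
  congr 2
  have := (Equiv.addRight (⟨c, hc⟩ : D.W k)).tsum_eq
    (fun w : D.W k => s.indicator (1 : Option F → ℝ≥0∞) (some (w : F)))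
  rw [← this]
  refine tsum_congr fun w => ?_
  rfl

noncomputable def P : Measure (Env F) := Measure.infinitePi (fun i : ℕ × (ℤ × ℤ) => D.nu i.1)

instance P_prob : IsProbabilityMeasure D.P := by
  unfold P
  infer_instance

lemma P_coord (i : ℕ × (ℤ × ℤ)) (S : Set (Option F)) :
    D.P {ω | ω i ∈ S} = D.nu i.1 S := by
  have h := Measure.infinitePi_map_eval (fun i : ℕ × (ℤ × ℤ) => D.nu i.1) i
  rw [← h, Measure.map_apply (measurable_pi_apply i) MeasurableSet.of_discrete]
  rfl

lemma measurable_tau (v : VV H) : Measurable (D.tau v) := by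
  refine measurable_pi_lambda _ fun i => ?_
  exact (Measurable.of_discrete (f := Option.map (· + D.pr i.1 (D.al v.1)))).comp
    (measurable_pi_apply _)

lemma map_tau (v : VV H) : D.P.map (D.tau v) = D.P := by
  suffices main : ∀ (s : Finset (ℕ × (ℤ × ℤ))) (t : ℕ × (ℤ × ℤ) → Set (Option F)),
      (∀ i, MeasurableSet (t i)) →
      (D.P.map (D.tau v)) (Set.pi s t) = ∏ i ∈ s, D.nu i.1 (t i) by
    exact Measure.eq_infinitePi _ (fun s t ht => main s t ht)
  intro s t ht
  classical
  rw [Measure.map_apply (D.measurable_tau v) (MeasurableSet.pi s.countable_toSet fun i _ => ht i)]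
  let e : ℕ × (ℤ × ℤ) → ℕ × (ℤ × ℤ) := fun i => (i.1, i.2 - lev v)
  let e' : ℕ × (ℤ × ℤ) → ℕ × (ℤ × ℤ) := fun i => (i.1, i.2 + lev v)
  have he : Function.Injective e := by
    intro i j hij
    simp only [e, Prod.mk.injEq, sub_left_inj] at hij
    exact Prod.ext hij.1 hij.2
  have hpre : D.tau v ⁻¹' (Set.pi s t) = Set.pi (s.image e : Finset _)
      (fun j => Option.map (· + D.pr j.1 (D.al v.1)) ⁻¹' t (e' j)) := by
    ext ω
    simp only [mem_preimage, Set.mem_pi, Finset.coe_image, mem_image, Finset.mem_coe,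
      forall_exists_index, and_imp, forall_apply_eq_imp_iff₂, tau, e, e', sub_add_cancel,
      Prod.mk.eta]
  rw [hpre]
  unfold P
  rw [Measure.infinitePi_pi _ (fun i _ => MeasurableSet.of_discrete),
    Finset.prod_image (fun i _ j _ h => he h)]
  refine Finset.prod_congr rfl fun i _ => ?_
  have := D.nu_map i.1 (D.pr i.1 (D.al v.1)) (D.pr_mem _ _)
  conv_rhs => rw [← this, Measure.map_apply Measurable.of_discrete (ht i)]
  simp only [e, e', sub_add_cancel, Prod.mk.eta]

lemma mp_tau (v : VV H) : MeasurePreserving (D.tau v) D.P D.P :=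
  ⟨D.measurable_tau v, D.map_tau v⟩

lemma tau_lv (n : ℤ) (ω : Env F) (i : ℕ × (ℤ × ℤ)) :
    D.tau (lv (n, 0)) ω i = ω (i.1, i.2 - (n, 0)) := by
  simp [tau, D.al_one]

theorem erg_env (A : Set (Env F)) (hA : MeasurableSet A)
    (hinv : ∀ n : ℤ, D.tau (lv (n, 0)) ⁻¹' A = A) : D.P A = 0 ∨ D.P A = 1 := by
  classical
  set μ := D.P with hμ
  set a := μ.real A with ha
  have key : ∀ ε : ℝ, 0 < ε → |a - a * a| ≤ 4 * ε := by
    intro ε hε
    have hdense := Measure.MeasureDense.of_generateFrom_isSetAlgebra_finite (μ := μ)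
      (isSetAlgebra_measurableCylinders (α := fun _ : ℕ × (ℤ × ℤ) => Option F))
      (generateFrom_measurableCylinders (α := fun _ : ℕ × (ℤ × ℤ) => Option F)).symm
    obtain ⟨B, hB, hAB⟩ := hdense.approx A hA (measure_ne_top _ _) ε hε
    have hBm : MeasurableSet B := hdense.measurable B hB
    rw [mem_measurableCylinders] at hB
    obtain ⟨s, S, hS, rfl⟩ := hB
    obtain ⟨n, hn⟩ := Infinite.exists_notMem_finset
      ((s ×ˢ s).image fun p => p.1.2.1 - p.2.2.1)
    set B := cylinder (α := fun _ : ℕ × (ℤ × ℤ) => Option F) s S with hBdef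
    set T := D.tau (lv (n, 0) : VV H) with hT
    have hTm : Measurable T := D.measurable_tau _
    have hsd : μ.real (symmDiff A B) ≤ ε := by
      rw [Measure.real]
      exact (ENNReal.ofReal_lt_ofReal_iff hε).1 (by
        rw [ENNReal.ofReal_toReal (measure_ne_top _ _)]; exact hAB) |>.le
    have hsdT : μ.real (T ⁻¹' (symmDiff A B)) ≤ ε := by
      rw [Measure.real, (D.mp_tau _).measure_preimage
        (hA.symmDiff hBm).nullMeasurableSet]
      exact hsd
    let s' : Finset (ℕ × (ℤ × ℤ)) := s.image fun i => (i.1, i.2 - (n, 0))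
    have hdisj : Disjoint s s' := by
      rw [Finset.disjoint_left]
      intro i hi hi'
      obtain ⟨j, hj, hji⟩ := Finset.mem_image.1 hi'
      apply hn
      refine Finset.mem_image.2 ⟨(j, i), Finset.mem_product.2 ⟨hj, hi⟩, ?_⟩
      rw [← hji]
      simp
    have hind : IndepFun (fun (ω : Env F) (i : s) => ω i) (fun (ω : Env F) (i : s') => ω i) μ := by
      have h0 : iIndepFun (fun (i : ℕ × (ℤ × ℤ)) (ω : Env F) => ω i) μ :=
        iIndepFun_infinitePi (P := fun i : ℕ × (ℤ × ℤ) => D.nu i.1)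
          (X := fun i x => x) (fun i => measurable_id)
      exact h0.indepFun_finset s s' hdisj (fun i => measurable_pi_apply i)
    let S' : Set ((i : s') → Option F) :=
      {y | (fun i : s => y ⟨(i.1.1, i.1.2 - (n, 0)), Finset.mem_image_of_mem _ i.2⟩) ∈ S}
    have hS' : MeasurableSet S' := by
      refine (measurable_pi_lambda _ fun i => ?_) hS
      exact measurable_pi_apply _
    have hBB : μ (B ∩ T ⁻¹' B) = μ B * μ (T ⁻¹' B) := by
      have := hind.measure_inter_preimage_eq_mul S S' hS hS'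
      have e1 : (fun (ω : Env F) (i : s) => ω i) ⁻¹' S = B := rfl
      have e2 : (fun (ω : Env F) (i : s') => ω i) ⁻¹' S' = T ⁻¹' B := by
        ext ω
        simp only [S', mem_preimage, mem_setOf_eq, hBdef, cylinder, hT]
        rw [show s.restrict (D.tau (lv (n, 0) : VV H) ω) =
          fun i : s => ω (i.1.1, i.1.2 - (n, 0)) from funext fun i => D.tau_lv n ω i]
      rw [e1, e2] at this
      exact this
    have hTB : μ (T ⁻¹' B) = μ B := (D.mp_tau _).measure_preimage hBm.nullMeasurableSet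
    have hBB' : μ.real (B ∩ T ⁻¹' B) = μ.real B * μ.real B := by
      simp only [Measure.real]
      rw [hBB, hTB, ENNReal.toReal_mul]
    have hTA : T ⁻¹' A = A := hinv n
    have h1 : |μ.real A - μ.real B| ≤ ε := by
      rw [abs_le]
      have hsub1 : A ⊆ B ∪ symmDiff A B := by
        intro x hx
        by_cases hxB : x ∈ B
        · exact Or.inl hxB
        · exact Or.inr (Or.inl ⟨hx, hxB⟩)
      have hsub2 : B ⊆ A ∪ symmDiff A B := by
        intro x hx
        by_cases hxA : x ∈ A
        · exact Or.inl hxA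
        · exact Or.inr (Or.inr ⟨hx, hxA⟩)
      have i1 := (measureReal_mono hsub1 (μ := μ)).trans (measureReal_union_le _ _)
      have i2 := (measureReal_mono hsub2 (μ := μ)).trans (measureReal_union_le _ _)
      constructor <;> linarith
    have h2 : |μ.real A - μ.real (B ∩ T ⁻¹' B)| ≤ 2 * ε := by
      rw [abs_le]
      have hsub1 : A ⊆ (B ∩ T ⁻¹' B) ∪ (symmDiff A B ∪ T ⁻¹' symmDiff A B) := by
        intro x hx
        have hx' : T x ∈ A := by
          change x ∈ T ⁻¹' A
          rw [hTA]; exact hx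
        by_cases hxB : x ∈ B
        · by_cases hxB' : T x ∈ B
          · exact Or.inl ⟨hxB, hxB'⟩
          · exact Or.inr (Or.inr (Or.inl ⟨hx', hxB'⟩))
        · exact Or.inr (Or.inl (Or.inl ⟨hx, hxB⟩))
      have hsub2 : (B ∩ T ⁻¹' B) ⊆ A ∪ (symmDiff A B ∪ T ⁻¹' symmDiff A B) := by
        intro x hx
        by_cases hxA : x ∈ A
        · exact Or.inl hxA
        · exact Or.inr (Or.inl (Or.inr ⟨hx.1, hxA⟩))
      have i0 := measureReal_union_le (μ := μ) (symmDiff A B) (T ⁻¹' symmDiff A B)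
      have i1 := (measureReal_mono hsub1 (μ := μ)).trans (measureReal_union_le _ _)
      have i2 := (measureReal_mono hsub2 (μ := μ)).trans (measureReal_union_le _ _)
      constructor <;> linarith
    rw [hBB'] at h2
    have ha1 : a ≤ 1 := measureReal_le_one
    have ha0 : 0 ≤ a := measureReal_nonneg
    have hb1 : μ.real B ≤ 1 := measureReal_le_one
    have hb0 : 0 ≤ μ.real B := measureReal_nonneg
    rw [abs_le] at h1 h2 ⊢
    constructor <;> nlinarith
  have h0 : a - a * a = 0 := by
    by_contra hne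
    have hpos : 0 < |a - a * a| := abs_pos.2 hne
    have := key (|a - a * a| / 8) (by positivity)
    linarith
  have h01 : a = 0 ∨ a = 1 := by
    have : a * (1 - a) = 0 := by linarith
    rcases mul_eq_zero.1 this with h | h
    · exact Or.inl h
    · exact Or.inr (by linarith)
  rcases h01 with h | h
  · left
    rw [ha, Measure.real, ENNReal.toReal_eq_zero_iff] at h
    exact h.resolve_right (measure_ne_top _ _)
  · right
    rw [ha, Measure.real, ENNReal.toReal_eq_one_iff] at h
    exact h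

/-- mass transport on the environment space -/
theorem mtp_env [Countable H] (f : Env F → VV H → VV H → ℝ≥0∞)
    (hm : ∀ x y, Measurable fun ω => f ω x y)
    (hc : ∀ v ω x y, f (D.tau v ω) (v * x) (v * y) = f ω x y) :
    ∫⁻ ω, ∑' x, f ω 1 x ∂D.P = ∫⁻ ω, ∑' x, f ω x 1 ∂D.P := by
  rw [lintegral_tsum (fun x => (hm _ _).aemeasurable),
    lintegral_tsum (fun x => (hm _ _).aemeasurable)]
  have h : ∀ x : VV H, ∫⁻ ω, f ω x 1 ∂D.P = ∫⁻ ω, f ω 1 x⁻¹ ∂D.P := by
    intro x
    rw [← (D.mp_tau x⁻¹).lintegral_comp (hm 1 x⁻¹)]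
    refine lintegral_congr fun ω => ?_
    rw [← hc x⁻¹ ω x 1]
    simp
  simp_rw [h]
  exact ((Equiv.inv (VV H)).tsum_eq (fun x => ∫⁻ ω, f ω 1 x ∂D.P)).symm

lemma meas_HE (k : ℕ) (x y : VV H) : MeasurableSet {ω : Env F | D.HE ω k x y} := by
  have : MeasurableSet {o : Option F | ∃ b, ∃ w ∈ D.W k, y = x * em (D.s b w) ∧
    ∃ θ, o = some θ ∧ (D.pr k (D.al x.1) = D.pr k θ ∨ D.pr k (D.al y.1) = D.pr k θ)} :=
    MeasurableSet.of_discrete
  exact (measurable_pi_apply (k, lev x) : Measurable fun ω : Env F => ω (k, lev x)) this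

lemma meas_adj (x y : VV H) : MeasurableSet {ω : Env F | (D.Gr ω).Adj x y} := by
  have : {ω : Env F | (D.Gr ω).Adj x y} =
      {ω | x ≠ y} ∩ ({ω | D.base x y} ∪ ⋃ k, {ω | D.HE ω k x y}) := by
    ext ω
    simp [Gr]
  rw [this]
  exact (MeasurableSet.const _).inter ((MeasurableSet.const _).union
    (MeasurableSet.iUnion fun k => D.meas_HE k x y))

lemma meas_Gr : Measurable (D.Gr (H := H)) := by
  rw [SimpleGraph.measurable_iff_adj]
  intro x y
  exact measurableSet_setOfPred.1 (D.meas_adj x y)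

end Dat

end Pool.Agent.H719R4
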