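import Pool.Agent.H719R4.Sp2

open MeasureTheory ProbabilityTheory Set Filter Topology
open scoped ENNReal NNReal

namespace Pool.Agent.H719R4

section
variable {V : Type} [Countable V]

lemma meas_adj' (x y : V) : MeasurableSet {G : SimpleGraph V | G.Adj x y} := by
  have h : Measurable fun G : SimpleGraph V => G.Adj x y := by fun_prop
  exact measurableSet_setOfPred.2 h

lemma Wi_zero {G : SimpleGraph V} {x y : V} : Wi G 0 x y ↔ x = y := by
  constructor
  · rintro ⟨p, hp⟩
    cases p with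
    | nil => rfl
    | cons h q => simp at hp
  · rintro rfl
    exact Wi.refl x 0

lemma Wi_succ {G : SimpleGraph V} {n : ℕ} {x y : V} :
    Wi G (n + 1) x y ↔ x = y ∨ ∃ z, G.Adj x z ∧ Wi G n z y := by
  constructor
  · rintro ⟨p, hp⟩
    cases p with
    | nil => exact Or.inl rfl
    | cons h q =>
      refine Or.inr ⟨_, h, q, ?_⟩
      simp only [SimpleGraph.Walk.length_cons] at hp
      omega
  · rintro (rfl | ⟨z, hz, h⟩)
    · exact Wi.refl x _
    · exact ((Wi.adj hz).trans h).mono (by omega)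

lemma meas_Wi (n : ℕ) : ∀ x y : V, MeasurableSet {G : SimpleGraph V | Wi G n x y} := by
  induction n with
  | zero =>
    intro x y
    simp only [Wi_zero]
    exact MeasurableSet.const _
  | succ n ih =>
    intro x y
    have : {G : SimpleGraph V | Wi G (n + 1) x y} =
        {G | x = y} ∪ ⋃ z, ({G | G.Adj x z} ∩ {G | Wi G n z y}) := by
      ext G
      simp [Wi_succ]
    rw [this]
    exact (MeasurableSet.const _).union (MeasurableSet.iUnion fun z => (meas_adj' x z).inter (ih z y))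

lemma meas_reach (x y : V) : MeasurableSet {G : SimpleGraph V | G.Reachable x y} := by
  have : {G : SimpleGraph V | G.Reachable x y} = ⋃ n, {G | Wi G n x y} := by
    ext G
    simp only [Set.mem_ofPred_eq, mem_iUnion]
    constructor
    · rintro ⟨p⟩
      exact ⟨p.length, p, le_rfl⟩
    · rintro ⟨n, h⟩
      exact h.reach
  rw [this]
  exact MeasurableSet.iUnion fun n => meas_Wi n x y

lemma meas_conn : MeasurableSet {G : SimpleGraph V | G.Connected} := by
  by_cases hne : Nonempty V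
  · have : {G : SimpleGraph V | G.Connected} = ⋂ x, ⋂ y, {G | G.Reachable x y} := by
      ext G
      simp only [Set.mem_ofPred_eq, mem_iInter]
      constructor
      · intro h x y
        exact h.preconnected x y
      · intro h
        exact SimpleGraph.Connected.mk h
    rw [this]
    exact MeasurableSet.iInter fun x => MeasurableSet.iInter fun y => meas_reach x y
  · have : {G : SimpleGraph V | G.Connected} = ∅ := by
      ext G
      simp only [Set.mem_ofPred_eq, mem_empty_iff_false, iff_false]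
      intro h
      exact hne h.nonempty
    rw [this]
    exact MeasurableSet.empty

lemma meas_cnd' (x y : V) : Measurable fun G : SimpleGraph V => cnd G one x y := by
  unfold cnd
  exact Measurable.ite (meas_adj' x y) measurable_const measurable_const

lemma meas_cdeg' (x : V) : Measurable fun G : SimpleGraph V => cdeg G one x :=
  Measurable.tsum fun y => meas_cnd' x y

omit [Countable V] in
lemma cdeg_eq (G : SimpleGraph V) (x : V) :
    cdeg G one x = ((G.neighborSet x).encard : ℝ≥0∞) := by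
  classical
  rw [← ENNReal.tsum_set_one, tsum_subtype (G.neighborSet x) (fun _ => (1 : ℝ≥0∞))]
  unfold cdeg
  refine tsum_congr fun y => ?_
  unfold one
  rw [cnd_one]
  simp [indicator]

omit [Countable V] in
lemma finite_of_cdeg {G : SimpleGraph V} {x : V} (h : cdeg G one x < ⊤) :
    {y | G.Adj x y}.Finite := by
  rw [cdeg_eq] at h
  have h2 : (G.neighborSet x).encard < ⊤ := by
    rw [lt_top_iff_ne_top] at h ⊢
    intro h3
    rw [h3] at h
    simp at h
  exact Set.encard_lt_top_iff.1 h2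
end

variable {H F : Type} [Group H] [AddCommGroup F] 

namespace Dat
variable (D : Dat H F)

/-- law of the graph -/
noncomputable def mu : Measure (SimpleGraph (VV H)) := D.P.map D.Gr

instance : IsProbabilityMeasure D.mu := by
  unfold mu
  exact Measure.isProbabilityMeasure_map D.meas_Gr.aemeasurable

lemma comap_tau (v : VV H) (ω : Env F) :
    (D.Gr (D.tau v ω)).comap (Equiv.mulLeft v) = D.Gr ω := by
  ext x y
  rw [SimpleGraph.comap_adj]
  exact D.Gr_tau ω v x y

variable [Countable H]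

lemma ae_lf : ∀ᵐ ω ∂D.P, ∀ x : VV H, cdeg (D.Gr ω) one x < ⊤ := by
  rw [ae_all_iff]
  intro x
  have h1 : ∀ᵐ ω ∂D.P, cdeg (D.Gr (H := H) ω) one 1 < ⊤ :=
    ae_lt_top (D.meas_cdeg 1) (ne_top_of_le_ne_top (by norm_num) D.lint_cdeg)
  have h2 := (D.mp_tau x⁻¹).quasiMeasurePreserving.ae h1
  filter_upwards [h2] with ω hω
  have := D.cdeg_tau ω x⁻¹ x
  rw [inv_mul_cancel] at this
  rwa [this] at hω

lemma adj_Phi (ω : Env F) (x : VV H) (i : Bool) : (D.Gr ω).Adj x (D.Ph (x.1, i), x.2) := by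
  obtain ⟨b, β, hβ, hne, h⟩ := D.Ph_adj (x.1, i)
  have e : ((D.Ph (x.1, i), x.2) : VV H) = x * em (D.s b β) := by
    rw [h]
    ext <;> simp [em]
  rw [e]
  refine ⟨?_, Or.inl (Or.inl ⟨b, β, hβ, rfl⟩)⟩
  intro h2
  have h3 : D.al x.1 = D.al x.1 + β := by
    conv_lhs => rw [h2]
    rw [Prod.fst_mul, D.al_mul, em_fst, D.al_s]
  exact hne (by simpa using h3)

omit [Countable H] in
lemma expand {G : SimpleGraph (VV H)} (hG : ∀ x i, G.Adj x (D.Ph (x.1, i), x.2))
    (K : Finset (VV H)) :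
    (K.card : ℕ∞) ≤ {p : VV H × VV H | p.1 ∈ K ∧ p.2 ∉ K ∧ G.Adj p.1 p.2}.encard := by
  classical
  let Φ : VV H × Bool → VV H := fun p => (D.Ph (p.1.1, p.2), p.1.2)
  have hΦ : Function.Injective Φ := by
    rintro ⟨x, i⟩ ⟨y, j⟩ h
    simp only [Φ, Prod.mk.injEq] at h
    have h1 := D.Ph_inj h.1
    simp only [Prod.mk.injEq] at h1
    exact Prod.ext (Prod.ext h1.1 h.2) h1.2
  let S : Finset (VV H × Bool) := K ×ˢ Finset.univ
  have hS : S.card = K.card * 2 := by
    simp [S, Finset.card_product]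
  have h1 : (S.filter fun p => Φ p ∈ K).card ≤ K.card :=
    Finset.card_le_card_of_injOn Φ (fun p hp => (Finset.mem_filter.1 hp).2) hΦ.injOn
  have h2 : K.card ≤ (S.filter fun p => Φ p ∉ K).card := by
    have := Finset.card_filter_add_card_filter_not (s := S) (fun p => Φ p ∈ K)
    omega
  let T : Finset (VV H × VV H) := (S.filter fun p => Φ p ∉ K).image fun p => (p.1, Φ p)
  have hT : T.card = (S.filter fun p => Φ p ∉ K).card := by
    refine Finset.card_image_of_injective _ ?_
    intro p q h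
    simp only [Prod.mk.injEq] at h
    exact hΦ h.2
  calc (K.card : ℕ∞) ≤ (T.card : ℕ∞) := by
        rw [hT]
        exact_mod_cast h2
    _ = (T : Set (VV H × VV H)).encard := (Set.encard_coe_eq_coe_finsetCard T).symm
    _ ≤ _ := by
        refine Set.encard_le_encard ?_
        intro q hq
        obtain ⟨p, hp, rfl⟩ := Finset.mem_image.1 (Finset.mem_coe.1 hq)
        rw [Finset.mem_filter, Finset.mem_product] at hp
        exact ⟨hp.1.1, hp.2, hG p.1 p.2⟩

theorem ae_graph : ∀ᵐ G ∂D.mu, G.Connected ∧ (∀ x, {y | G.Adj x y}.Finite) ∧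
    ∀ K : Finset (VV H),
      (K.card : ℕ∞) ≤ {p : VV H × VV H | p.1 ∈ K ∧ p.2 ∉ K ∧ G.Adj p.1 p.2}.encard := by
  have h1 : ∀ᵐ G ∂D.mu, G.Connected := by
    unfold mu
    rw [ae_map_iff D.meas_Gr.aemeasurable meas_conn]
    exact D.ae_conn
  have h2 : ∀ᵐ G ∂D.mu, ∀ x, cdeg G one x < ⊤ := by
    rw [ae_all_iff]
    intro x
    unfold mu
    rw [ae_map_iff D.meas_Gr.aemeasurable (measurableSet_lt (meas_cdeg' x) measurable_const)]
    filter_upwards [D.ae_lf] with ω hω using hω x
  have h3 : ∀ᵐ G ∂D.mu, ∀ x i, G.Adj x (D.Ph (x.1, i), x.2) := by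
    rw [ae_all_iff]
    intro x
    rw [ae_all_iff]
    intro i
    unfold mu
    rw [ae_map_iff D.meas_Gr.aemeasurable (meas_adj' _ _)]
    exact Eventually.of_forall fun ω => D.adj_Phi ω x i
  filter_upwards [h1, h2, h3] with G hG1 hG2 hG3
  exact ⟨hG1, fun x => finite_of_cdeg (hG2 x), fun K => D.expand hG3 K⟩

theorem mtp (f : SimpleGraph (VV H) → VV H → VV H → ℝ≥0∞)
    (hm : ∀ x y, Measurable fun G => f G x y)
    (hf : ∀ (π : Equiv.Perm (VV H)) G x y, f (G.comap π) x y = f G (π x) (π y)) :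
    ∫⁻ G, ∑' x, f G 1 x ∂D.mu = ∫⁻ G, ∑' x, f G x 1 ∂D.mu := by
  unfold mu
  rw [lintegral_map (Measurable.tsum fun x => hm 1 x) D.meas_Gr,
    lintegral_map (Measurable.tsum fun x => hm x 1) D.meas_Gr]
  refine D.mtp_env (fun ω x y => f (D.Gr ω) x y) (fun x y => (hm x y).comp D.meas_Gr) ?_
  intro v ω x y
  have := hf (Equiv.mulLeft v) (D.Gr (D.tau v ω)) x y
  rw [D.comap_tau] at this
  exact this.symm

theorem erg (A : Set (SimpleGraph (VV H))) (hA : MeasurableSet A)
    (hinv : ∀ (π : Equiv.Perm (VV H)) G, G.comap π ∈ A ↔ G ∈ A) : D.mu A = 0 ∨ D.mu A = 1 := by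
  unfold mu
  rw [Measure.map_apply D.meas_Gr hA]
  refine D.erg_env _ (D.meas_Gr hA) fun n => ?_
  ext ω
  change D.Gr (D.tau _ ω) ∈ A ↔ D.Gr ω ∈ A
  rw [← hinv (Equiv.mulLeft (lv (n, 0))) (D.Gr (D.tau (lv (n, 0)) ω)), D.comap_tau]

theorem deg_fin : ∫⁻ G, cdeg G one 1 ∂D.mu ≤ 12 := by
  unfold mu
  rw [lintegral_map (meas_cdeg' 1) D.meas_Gr]
  exact D.lint_cdeg

theorem deg_pos : 1 ≤ ∫⁻ G, cdeg G one 1 ∂D.mu := by
  unfold mu
  rw [lintegral_map (meas_cdeg' 1) D.meas_Gr]
  calc (1 : ℝ≥0∞) = ∫⁻ ω, 1 ∂D.P := by simp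
    _ ≤ _ := by
      refine lintegral_mono fun ω => ?_
      unfold cdeg
      refine le_trans ?_ (ENNReal.le_tsum (1 * lv (1, 0) : VV H))
      classical
      unfold one
      rw [cnd_one, if_pos (D.adj_lv ω 1 (by simp [U]))]

theorem speed_zero : Tendsto (fun n : ℕ => (∫⁻ G, cdeg G one 1 *
      wexp G one n (fun y => (G.dist 1 y : ℝ≥0∞)) 1 ∂D.mu) / n) atTop (𝓝 0) := by
  refine tendsto_of_tendsto_of_tendsto_of_le_of_le tendsto_const_nhds D.disp_tendsto
    (fun _ => zero_le) fun n => ?_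
  refine ENNReal.div_le_div_right ?_ _
  exact lintegral_map_le _ _

end Dat

end Pool.Agent.H719R4
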