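import Pool.Agent.H719R4.Env
import Pool.Agent.H719R4.Det

open MeasureTheory ProbabilityTheory Set
open scoped ENNReal NNReal

namespace Pool.Agent.H719R4

lemma cnd_comm {V : Type} (G : SimpleGraph V) (x y : V) : cnd G one x y = cnd G one y x := by
  classical
  unfold one
  rw [cnd_one, cnd_one]
  simp only [SimpleGraph.adj_comm]

variable {H F : Type} [Group H] [AddCommGroup F] 

namespace Dat
variable (D : Dat H F)

lemma cnd_tau (ω : Env F) (v x y : VV H) :
    cnd (D.Gr (D.tau v ω)) one (v * x) (v * y) = cnd (D.Gr ω) one x y := by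
  classical
  unfold one
  rw [cnd_one, cnd_one]
  simp only [Gr_tau]

lemma cdeg_tau (ω : Env F) (v x : VV H) :
    cdeg (D.Gr (D.tau v ω)) one (v * x) = cdeg (D.Gr ω) one x := by
  unfold cdeg
  rw [← (Equiv.mulLeft v).tsum_eq]
  simp only [Equiv.coe_mulLeft, cnd_tau]

lemma meas_cnd (x y : VV H) : Measurable fun ω => cnd (D.Gr ω) one x y := by
  unfold cnd
  exact Measurable.ite (D.meas_adj x y) measurable_const measurable_const

variable [Countable H]

lemma meas_cdeg (x : VV H) : Measurable fun ω => cdeg (D.Gr ω) one x :=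
  Measurable.ennreal_tsum (fun y => D.meas_cnd x y)

/-- measurable and covariant -/
def Cov (h : Env F → VV H → ℝ≥0∞) : Prop :=
  (∀ x, Measurable fun ω => h ω x) ∧ ∀ v ω x, h (D.tau v ω) (v * x) = h ω x

variable {D}

lemma Cov.Q {h : Env F → VV H → ℝ≥0∞} (hh : D.Cov h) :
    D.Cov (fun ω x => H719R4.Q (D.Gr ω) one (h ω) x) := by
  constructor
  · intro x
    unfold H719R4.Q
    exact (Measurable.ennreal_tsum fun y => (D.meas_cnd x y).mul (hh.1 y)).div (D.meas_cdeg x)
  · intro v ω x
    unfold H719R4.Q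
    beta_reduce
    rw [cdeg_tau, ← (Equiv.mulLeft v).tsum_eq]
    simp only [Equiv.coe_mulLeft, cnd_tau, hh.2]

lemma Cov.wexp {h : Env F → VV H → ℝ≥0∞} (hh : D.Cov h) (n : ℕ) :
    D.Cov (fun ω x => H719R4.wexp (D.Gr ω) one n (h ω) x) := by
  induction n with
  | zero => exact hh
  | succ n ih => exact ih.Q

theorem stat1 {h : Env F → VV H → ℝ≥0∞} (hh : D.Cov h) :
    ∫⁻ ω, cdeg (D.Gr ω) one 1 * H719R4.Q (D.Gr ω) one (h ω) 1 ∂D.P ≤
      ∫⁻ ω, cdeg (D.Gr ω) one 1 * h ω 1 ∂D.P := by
  calc _ ≤ ∫⁻ ω, ∑' y, cnd (D.Gr ω) one 1 y * h ω y ∂D.P :=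
        lintegral_mono fun ω => cdeg_mul_Q_le _ _
    _ = ∫⁻ ω, ∑' y, cnd (D.Gr ω) one y 1 * h ω 1 ∂D.P := by
        refine D.mtp_env (fun ω x y => cnd (D.Gr ω) one x y * h ω y)
          (fun x y => (D.meas_cnd x y).mul (hh.1 y)) (fun v ω x y => ?_)
        rw [cnd_tau, hh.2]
    _ = _ := by
        refine lintegral_congr fun ω => ?_
        rw [ENNReal.tsum_mul_right]
        congr 1
        exact tsum_congr fun y => cnd_comm _ _ _

theorem stat {h : Env F → VV H → ℝ≥0∞} (hh : D.Cov h) (n : ℕ) :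
    ∫⁻ ω, cdeg (D.Gr ω) one 1 * H719R4.wexp (D.Gr ω) one n (h ω) 1 ∂D.P ≤
      ∫⁻ ω, cdeg (D.Gr ω) one 1 * h ω 1 ∂D.P := by
  induction n with
  | zero => exact le_rfl
  | succ n ih => exact (stat1 (hh.wexp n)).trans ih

variable (D)

lemma cov_bd (K : ℕ) : D.Cov (D.bd K) := by
  constructor
  · intro x
    exact Measurable.ennreal_tsum fun y => (D.meas_cnd x y).mul measurable_const
  · intro v ω x
    unfold bd
    rw [← (Equiv.mulLeft v).tsum_eq]
    refine tsum_congr fun y => ?_
    simp only [Equiv.coe_mulLeft, cnd_tau]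
    congr 1
    classical
    exact if_congr (D.Good_mul K v x y) rfl rfl

lemma cov_bb (K : ℕ) : D.Cov (D.bb K) := by
  constructor
  · intro x
    exact ((D.cov_bd K).1 x).div (D.meas_cdeg x)
  · intro v ω x
    unfold bb
    rw [cdeg_tau, (D.cov_bd K).2]

lemma lint_bb (K : ℕ) (n : ℕ) :
    ∫⁻ ω, cdeg (D.Gr ω) one 1 * H719R4.wexp (D.Gr ω) one n (D.bb K ω) 1 ∂D.P ≤
      ∫⁻ ω, D.bd K ω 1 ∂D.P :=
  (stat (D.cov_bb K) n).trans (lintegral_mono fun ω => ENNReal.mul_div_le)

open Classical in
/-- number of hub edges at scale `k` at the root -/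
noncomputable def ck (k : ℕ) (ω : Env F) : ℝ≥0∞ := ∑' y : VV H, if D.HE ω k 1 y then 1 else 0

lemma meas_ck (k : ℕ) : Measurable (D.ck k) :=
  Measurable.ennreal_tsum fun y => Measurable.ite (D.meas_HE k 1 y) measurable_const measurable_const

omit [Countable H] in
lemma P_hub (k : ℕ) (w : F) (hw : w ∈ D.W k) :
    D.P {ω | ω (k, 0) ∈ {o | ∃ θ, o = some θ ∧ (0 = D.pr k θ ∨ w = D.pr k θ)}} ≤
      2 * (eta k * (D.cw k)⁻¹) := by
  classical
  rw [P_coord, nu_apply]
  have h0 : ({o | ∃ θ, o = some θ ∧ (0 = D.pr k θ ∨ w = D.pr k θ)} : Set (Option F)).indicator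
      (1 : Option F → ℝ≥0∞) none = 0 := by
    rw [indicator_of_notMem]
    rintro ⟨θ, h, -⟩
    cases h
  rw [h0, mul_zero, zero_add, mul_comm]
  gcongr
  have hle : ∀ v : D.W k, ({o | ∃ θ, o = some θ ∧ (0 = D.pr k θ ∨ w = D.pr k θ)} :
      Set (Option F)).indicator (1 : Option F → ℝ≥0∞) (some (v : F)) ≤
      (if v = 0 then 1 else 0) + (if v = ⟨w, hw⟩ then 1 else 0) := by
    intro v
    by_cases hv : (some (v : F) : Option F) ∈
        ({o | ∃ θ, o = some θ ∧ (0 = D.pr k θ ∨ w = D.pr k θ)} : Set (Option F))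
    · rw [indicator_of_mem hv]
      obtain ⟨θ, h1, h2⟩ := hv
      rw [Option.some_inj] at h1
      subst h1
      rw [D.pr_id k _ v.2] at h2
      rcases h2 with h2 | h2
      · have : v = 0 := Subtype.ext h2.symm
        rw [if_pos this]
        exact le_self_add
      · have : v = ⟨w, hw⟩ := Subtype.ext h2.symm
        rw [if_pos this]
        exact le_add_self
    · rw [indicator_of_notMem hv]
      exact zero_le
  refine (ENNReal.tsum_le_tsum hle).trans ?_
  rw [ENNReal.tsum_add, tsum_ite_eq, tsum_ite_eq]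
  norm_num

lemma lint_ck (k : ℕ) : ∫⁻ ω, D.ck k ω ∂D.P ≤ 4 * eta k := by
  classical
  haveI := D.Wfin k
  let E : F → Set (Env F) := fun w =>
    {ω | ω (k, 0) ∈ {o | ∃ θ, o = some θ ∧ (0 = D.pr k θ ∨ w = D.pr k θ)}}
  have hE : ∀ w, MeasurableSet (E w) := fun w =>
    (measurable_pi_apply (k, (0 : ℤ × ℤ)) : Measurable fun ω : Env F => ω (k, 0))
      MeasurableSet.of_discrete
  have h1 : ∀ ω, D.ck k ω ≤ ∑' p : Bool × D.W k, (E p.2).indicator 1 ω := by
    intro ω
    unfold ck
    calc _ ≤ ∑' y : VV H, ∑' p : Bool × D.W k,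
          (if y = em (D.s p.1 p.2) then (E p.2).indicator 1 ω else 0) := by
          refine ENNReal.tsum_le_tsum fun y => ?_
          split_ifs with h
          · obtain ⟨b, w, hw, hy, θ, h1, h2⟩ := h
            refine le_trans ?_ (ENNReal.le_tsum ((b, ⟨w, hw⟩) : Bool × D.W k))
            rw [one_mul] at hy
            rw [if_pos hy, indicator_of_mem]
            · exact le_rfl
            · refine ⟨θ, h1, ?_⟩
              subst hy
              simp only [Prod.fst_one, D.al_one, map_zero, em_fst, D.al_s, D.pr_id k w hw] at h2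
              exact h2
          · exact zero_le
      _ = ∑' p : Bool × D.W k, ∑' y : VV H,
          (if y = em (D.s p.1 p.2) then (E p.2).indicator 1 ω else 0) := ENNReal.tsum_comm
      _ = _ := by
          refine tsum_congr fun p => ?_
          rw [tsum_ite_eq]
  refine (lintegral_mono h1).trans ?_
  haveI : Countable (Bool × D.W k) := inferInstance
  rw [lintegral_tsum (f := fun (p : Bool × D.W k) (ω : Env F) =>
    (E p.2).indicator (1 : Env F → ℝ≥0∞) ω)
    (fun p => (measurable_one.indicator (hE p.2)).aemeasurable)]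
  calc _ ≤ ∑' p : Bool × D.W k, 2 * (eta k * (D.cw k)⁻¹) := by
        refine ENNReal.tsum_le_tsum fun p => ?_
        rw [lintegral_indicator_one (hE p.2)]
        exact D.P_hub k p.2 p.2.2
    _ = (2 * D.cw k) * (2 * (eta k * (D.cw k)⁻¹)) := by
        rw [ENNReal.tsum_const]
        congr 1
        rw [ENat.card_prod]
        simp [cw]
    _ = 4 * eta k * ((D.cw k)⁻¹ * D.cw k) := by ring
    _ = 4 * eta k := by
        rw [ENNReal.inv_mul_cancel (D.cw_ne_zero k) (D.cw_ne_top k), mul_one]

lemma bd_le (K : ℕ) (ω : Env F) : D.bd K ω 1 ≤ ∑' k, if K < k then D.ck k ω else 0 := by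
  classical
  unfold bd
  calc _ ≤ ∑' y : VV H, ∑' k, (if K < k then (if D.HE ω k 1 y then 1 else 0) else 0) := by
        refine ENNReal.tsum_le_tsum fun y => ?_
        by_cases hg : D.Good K 1 y
        · simp [hg]
        · by_cases ha : (D.Gr ω).Adj 1 y
          · obtain ⟨-, h⟩ := ha
            rcases h with h | ⟨k, h⟩
            · exact absurd (D.good_of_base h) hg
            · have hk : K < k := by
                by_contra hk
                exact hg (D.good_of_HE h (not_lt.1 hk))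
              refine le_trans ?_ (ENNReal.le_tsum k)
              rw [if_pos hk, if_pos h, if_neg hg]
              unfold one
              rw [cnd_one, mul_one]
              split_ifs
              · exact le_rfl
              · exact zero_le
          · unfold one
            rw [cnd_one, if_neg ha, zero_mul]
            exact zero_le
    _ = ∑' k, ∑' y : VV H, (if K < k then (if D.HE ω k 1 y then 1 else 0) else 0) :=
        ENNReal.tsum_comm
    _ = _ := by
        refine tsum_congr fun k => ?_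
        split_ifs with hk
        · rfl
        · simp

omit [Countable H] in
lemma base_count [DecidablePred fun y : VV H => D.base 1 y] :
    ∑' y : VV H, (if D.base 1 y then (1 : ℝ≥0∞) else 0) ≤ 8 := by
  classical
  let T0 : Finset (VV H) := ((Finset.univ : Finset Bool) ×ˢ D.B).image (fun p => em (D.s p.1 p.2)) ∪
    U.image lv
  have hcard : T0.card ≤ 8 := by
    refine (Finset.card_union_le _ _).trans ?_
    have h1 : (((Finset.univ : Finset Bool) ×ˢ D.B).image
        (fun p => (em (D.s p.1 p.2) : VV H))).card ≤ 4 := by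
      refine Finset.card_image_le.trans ?_
      rw [Finset.card_product]
      have := D.Bcard
      simp only [Finset.card_univ, Fintype.card_bool]
      omega
    have h2 : (U.image (lv : ℤ × ℤ → VV H)).card ≤ 4 := by
      refine Finset.card_image_le.trans ?_
      decide
    omega
  calc _ ≤ ∑' y : VV H, (if y ∈ T0 then (1 : ℝ≥0∞) else 0) := by
        refine ENNReal.tsum_le_tsum fun y => ?_
        split_ifs with h1 h2 h2
        · exact le_rfl
        · exfalso
          apply h2
          rcases h1 with ⟨b, β, hβ, rfl⟩ | ⟨u, hu, rfl⟩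
          · refine Finset.mem_union_left _ (Finset.mem_image.2 ⟨(b, β), ?_, ?_⟩)
            · exact Finset.mem_product.2 ⟨Finset.mem_univ _, hβ⟩
            · simp
          · refine Finset.mem_union_right _ (Finset.mem_image.2 ⟨u, hu, ?_⟩)
            simp
        · exact zero_le
        · exact le_rfl
    _ = (T0.card : ℝ≥0∞) := by
        rw [tsum_eq_sum (s := T0) (fun y hy => by simp [hy])]
        rw [Finset.sum_congr rfl (fun y hy => if_pos hy)]
        simp
    _ ≤ 8 := by exact_mod_cast hcard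

lemma cdeg_le (ω : Env F) : cdeg (D.Gr ω) one 1 ≤ 8 + ∑' k, D.ck k ω := by
  classical
  unfold cdeg
  calc _ ≤ ∑' y : VV H, ((if D.base 1 y then (1 : ℝ≥0∞) else 0) +
        ∑' k, (if D.HE ω k 1 y then 1 else 0)) := by
        refine ENNReal.tsum_le_tsum fun y => ?_
        unfold one
        rw [cnd_one]
        by_cases ha : (D.Gr ω).Adj 1 y
        · rw [if_pos ha]
          rcases ha.2 with h | ⟨k, h⟩
          · rw [if_pos h]
            exact le_self_add
          · refine le_trans ?_ le_add_self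
            refine le_trans ?_ (ENNReal.le_tsum k)
            rw [if_pos h]
        · rw [if_neg ha]
          exact zero_le
    _ = ∑' y : VV H, (if D.base 1 y then (1 : ℝ≥0∞) else 0) +
        ∑' y : VV H, ∑' k, (if D.HE ω k 1 y then 1 else 0) := ENNReal.tsum_add
    _ ≤ 8 + ∑' k, D.ck k ω := by
        refine add_le_add D.base_count ?_
        rw [ENNReal.tsum_comm]
        exact le_rfl

lemma eta_le_half (k : ℕ) : eta k ≤ (2⁻¹ : ℝ≥0∞) ^ (k + 1) := by
  unfold eta
  rw [← ENNReal.inv_pow, ENNReal.inv_le_inv]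
  exact le_self_pow₀ (one_le_pow₀ (by norm_num)) (by norm_num)

lemma geo_sum : ∑' k : ℕ, (2⁻¹ : ℝ≥0∞) ^ (k + 1) = 1 := by
  simp_rw [pow_succ]
  rw [ENNReal.tsum_mul_right, ENNReal.tsum_geometric, ENNReal.one_sub_inv_two, inv_inv]
  exact ENNReal.mul_inv_cancel (by norm_num) (by norm_num)

lemma lint_tsum_ck : ∫⁻ ω, ∑' k, D.ck k ω ∂D.P ≤ 4 := by
  rw [lintegral_tsum (fun k => (D.meas_ck k).aemeasurable)]
  calc _ ≤ ∑' k : ℕ, 4 * (2⁻¹ : ℝ≥0∞) ^ (k + 1) := by
        refine ENNReal.tsum_le_tsum fun k => (D.lint_ck k).trans ?_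
        gcongr
        exact eta_le_half k
    _ = 4 := by rw [ENNReal.tsum_mul_left, geo_sum, mul_one]

lemma lint_cdeg : ∫⁻ ω, cdeg (D.Gr ω) one 1 ∂D.P ≤ 12 := by
  refine (lintegral_mono D.cdeg_le).trans ?_
  rw [lintegral_add_left measurable_const]
  have := D.lint_tsum_ck
  calc _ ≤ (8 : ℝ≥0∞) + 4 := by
        gcongr
        simp
    _ = 12 := by norm_num

lemma lint_bd (K : ℕ) : ∫⁻ ω, D.bd K ω 1 ∂D.P ≤ 4 * (((2 : ℝ≥0∞) ^ (K + 2)) ^ 15)⁻¹ := by
  refine (lintegral_mono (D.bd_le K)).trans ?_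
  rw [lintegral_tsum]
  · calc _ ≤ ∑' k : ℕ, (4 * (((2 : ℝ≥0∞) ^ (K + 2)) ^ 15)⁻¹) * (2⁻¹ : ℝ≥0∞) ^ (k + 1) := by
          refine ENNReal.tsum_le_tsum fun k => ?_
          by_cases hk : K < k
          · simp only [hk, if_true]
            refine (D.lint_ck k).trans ?_
            rw [mul_assoc]
            gcongr
            unfold eta
            rw [← ENNReal.inv_pow, ← ENNReal.mul_inv (by simp) (by simp), ENNReal.inv_le_inv]
            have h2 : (2 : ℝ≥0∞) ^ (K + 2) ≤ 2 ^ (k + 1) :=
              pow_le_pow_right₀ (by norm_num) (by omega)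
            calc ((2 : ℝ≥0∞) ^ (K + 2)) ^ 15 * 2 ^ (k + 1) ≤
                ((2 : ℝ≥0∞) ^ (k + 1)) ^ 15 * 2 ^ (k + 1) := by
                  gcongr
              _ = ((2 : ℝ≥0∞) ^ (k + 1)) ^ 16 := by ring
          · simp [hk]
      _ = _ := by rw [ENNReal.tsum_mul_left, geo_sum, mul_one]
  · intro k
    split_ifs
    · exact (D.meas_ck k).aemeasurable
    · exact aemeasurable_const

end Dat

end Pool.Agent.H719R4
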