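import Pool.Agent.H719R4.Sp

open MeasureTheory ProbabilityTheory Set Filter Topology
open scoped ENNReal NNReal

namespace Pool.Agent.H719R4

variable {H F : Type} [Group H] [AddCommGroup F] 

namespace Dat
variable (D : Dat H F)

/-- no active level at scale `k` near level zero -/
def NA (F : Type) (k N : ℕ) : Set (Env F) := {ω | ∀ c : ℤ × ℤ, n1 c ≤ 2 * N → ω (k, c) = none}

lemma meas_NA (k N : ℕ) : MeasurableSet (NA F k N) := by
  have : NA F k N = ⋂ c : ℤ × ℤ, {ω | n1 c ≤ 2 * N → ω (k, c) ∈ ({none} : Set (Option F))} := by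
    ext ω
    simp [NA]
  rw [this]
  refine MeasurableSet.iInter fun c => ?_
  by_cases hc : n1 c ≤ 2 * N
  · simp only [hc, true_imp_iff]
    exact (measurable_pi_apply (k, c) : Measurable fun ω : Env F => ω (k, c))
      MeasurableSet.of_discrete
  · simp [hc]

lemma eta_pow (k m : ℕ) : (1 - eta k) ^ m ≤ ((m : ℝ≥0∞) * eta k)⁻¹ := by
  have h1 : (1 - eta k) * (1 + eta k) ≤ 1 := by
    have h := eta_le_one k
    calc (1 - eta k) * (1 + eta k) = (1 - eta k) + (1 - eta k) * eta k := by ring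
      _ ≤ (1 - eta k) + 1 * eta k := by
        gcongr
        exact tsub_le_self
      _ = 1 := by rw [one_mul]; exact tsub_add_cancel_of_le h
  have h2 : (m : ℝ≥0∞) * eta k ≤ (1 + eta k) ^ m := by
    induction m with
    | zero => simp
    | succ m ih =>
      have h3 : (1 : ℝ≥0∞) ≤ (1 + eta k) ^ m := one_le_pow₀ le_self_add
      calc ((m + 1 : ℕ) : ℝ≥0∞) * eta k = m * eta k + 1 * eta k := by push_cast; ring
        _ ≤ (1 + eta k) ^ m + (1 + eta k) ^ m * eta k := by gcongr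
        _ = (1 + eta k) ^ (m + 1) := by ring
  rw [ENNReal.le_inv_iff_mul_le]
  calc (1 - eta k) ^ m * (m * eta k) ≤ (1 - eta k) ^ m * (1 + eta k) ^ m := by gcongr
    _ = ((1 - eta k) * (1 + eta k)) ^ m := by rw [mul_pow]
    _ ≤ 1 := pow_le_one₀ zero_le h1

lemma nu_none (k : ℕ) : D.nu k {none} = 1 - eta k := by
  rw [nu_apply]
  simp

lemma P_NA (k N : ℕ) : D.P (NA F k N) ≤ ((N : ℝ≥0∞) ^ 2 * eta k)⁻¹ := by
  classical
  let box : Finset (ℕ × (ℤ × ℤ)) :=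
    (Finset.range N ×ˢ Finset.range N).image fun p => (k, ((p.1 : ℤ), (p.2 : ℤ)))
  have hcard : box.card = N ^ 2 := by
    rw [Finset.card_image_of_injective, Finset.card_product, Finset.card_range]
    · ring
    · intro p q h
      simp only [Prod.mk.injEq, Nat.cast_inj, true_and] at h
      exact Prod.ext h.1 h.2
  have hsub : NA F k N ⊆ Set.pi (box : Finset _) (fun _ => ({none} : Set (Option F))) := by
    intro ω hω i hi
    obtain ⟨p, hp, rfl⟩ := Finset.mem_image.1 (Finset.mem_coe.1 hi)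
    rw [Finset.mem_product, Finset.mem_range, Finset.mem_range] at hp
    refine hω _ ?_
    simp only [n1]
    omega
  refine (measure_mono hsub).trans ?_
  unfold P
  rw [Measure.infinitePi_pi _ (fun i _ => MeasurableSet.of_discrete)]
  rw [Finset.prod_congr rfl (g := fun _ => 1 - eta k), Finset.prod_const, hcard]
  · refine (eta_pow k _).trans ?_
    push_cast
    exact le_rfl
  · intro i hi
    obtain ⟨p, hp, rfl⟩ := Finset.mem_image.1 hi
    exact D.nu_none k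

lemma ae_active : ∀ᵐ ω ∂D.P, ∀ k, ∃ m, ω (k, m) ≠ none := by
  rw [ae_all_iff]
  intro k
  rw [ae_iff]
  set S : Set (Env F) := {ω | ¬ ∃ m, ω (k, m) ≠ none} with hS
  have h : ∀ N : ℕ, D.P S ≤ ((N : ℝ≥0∞) ^ 2 * eta k)⁻¹ := by
    intro N
    refine (measure_mono ?_).trans (D.P_NA k N)
    intro ω hω c _
    by_contra hne
    exact hω ⟨c, hne⟩
  by_contra hne
  have hpos : D.P S * eta k ≠ 0 := mul_ne_zero hne (eta_ne_zero k)
  obtain ⟨N, hN⟩ := ENNReal.exists_nat_mul_gt hpos ENNReal.one_ne_top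
  have h1 := h N
  rw [ENNReal.le_inv_iff_mul_le] at h1
  have h2 : (N : ℝ≥0∞) ≤ (N : ℝ≥0∞) ^ 2 := by
    rcases Nat.eq_zero_or_pos N with h0 | h0
    · subst h0; simp
    · have : (1 : ℝ≥0∞) ≤ N := by exact_mod_cast h0
      exact le_self_pow₀ this (by norm_num)
  have h3 : (N : ℝ≥0∞) * (D.P S * eta k) ≤ 1 := by
    calc (N : ℝ≥0∞) * (D.P S * eta k) ≤ (N : ℝ≥0∞) ^ 2 * (D.P S * eta k) := by gcongr
      _ = D.P S * ((N : ℝ≥0∞) ^ 2 * eta k) := by ring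
      _ ≤ 1 := h1
  exact absurd hN (not_lt.2 h3)

lemma ae_conn : ∀ᵐ ω ∂D.P, (D.Gr (H := H) ω).Connected := by
  filter_upwards [D.ae_active] with ω hω
  exact D.conn hω

variable [Countable H]

theorem main_bound {K n t N : ℕ} (hn : n ≤ Lk K) (ht : 1 ≤ t) :
    ∫⁻ ω, cdeg (D.Gr ω) one 1 *
      wexp (D.Gr ω) one n (fun y => ((D.Gr ω).dist 1 y : ℝ≥0∞)) 1 ∂D.P ≤
    (48 + 4 * N + 2 * t + n / t) * ∫⁻ ω, cdeg (D.Gr ω) one 1 ∂D.P +
      (n * ∫⁻ ω in NA F (K + 1) N, cdeg (D.Gr ω) one 1 ∂D.P +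
      n * (n * ∫⁻ ω, D.bd K ω 1 ∂D.P)) := by
  classical
  have hae : ∀ᵐ ω ∂D.P, cdeg (D.Gr ω) one 1 *
      wexp (D.Gr ω) one n (fun y => ((D.Gr ω).dist 1 y : ℝ≥0∞)) 1 ≤
      (48 + 4 * N + 2 * t + n / t) * cdeg (D.Gr ω) one 1 +
      (n * (NA F (K + 1) N).indicator (fun ω => cdeg (D.Gr ω) one 1) ω +
      n * ∑ i ∈ Finset.range n, cdeg (D.Gr ω) one 1 * wexp (D.Gr ω) one i (D.bb K ω) 1) := by
    filter_upwards [D.ae_conn] with ω hω
    have hdet := D.det_bound hω (K := K) (n := n) (t := t)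
      (C := 48 + 4 * N + 2 * t + n * (NA F (K + 1) N).indicator 1 ω) ?_ n 0 1 (by omega)
      (D.RK_one K 0) (by simp)
    · have hq : qf (1 : VV H) = 0 := by simp [qf, qq]
      rw [hq, zero_add] at hdet
      refine (mul_le_mul' le_rfl hdet).trans (le_of_eq ?_)
      have hi : (NA F (K + 1) N).indicator (fun ω => cdeg (D.Gr ω) one 1) ω =
          (NA F (K + 1) N).indicator 1 ω * cdeg (D.Gr (H := H) ω) one 1 := by
        by_cases h : ω ∈ NA F (K + 1) N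
        · simp [h]
        · simp [h]
      rw [hi, ← Finset.mul_sum]
      ring
    · intro x hR hd
      by_cases hNA : ω ∈ NA F (K + 1) N
      · rw [indicator_of_mem hNA]
        have : ((D.Gr ω).dist 1 x : ℝ≥0∞) ≤ n := by exact_mod_cast hd
        refine this.trans ?_
        simp only [Pi.one_apply, mul_one]
        exact le_add_right le_add_self
      · rw [indicator_of_notMem hNA, mul_zero, add_zero]
        simp only [NA, Set.mem_setOf_eq, not_forall] at hNA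
        obtain ⟨c, hc, hne⟩ := hNA
        have h1 := D.dist_RK hR hn hc hne
        have h2 : ((D.Gr ω).dist 1 x : ℝ≥0∞) ≤ 48 + 4 * N + n1 (lev x) := by exact_mod_cast h1
        refine h2.trans ?_
        have h3 := n1_le (lev x) t ht
        calc (48 + 4 * N + n1 (lev x) : ℝ≥0∞) ≤ 48 + 4 * N + ((qq (lev x) : ℝ≥0∞) / t + 2 * t) := by
              gcongr
          _ = 48 + 4 * N + 2 * t + qf x / t := by
              unfold qf
              ring
  refine (lintegral_mono_ae hae).trans ?_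
  have m1 : Measurable fun ω : Env F => cdeg (D.Gr (H := H) ω) one 1 := D.meas_cdeg 1
  rw [lintegral_add_left (m1.const_mul _), lintegral_add_left
    ((m1.indicator (meas_NA _ _)).const_mul _), lintegral_const_mul _ m1,
    lintegral_const_mul _ (m1.indicator (meas_NA _ _)), lintegral_indicator (meas_NA _ _)]
  gcongr
  have m2 : ∀ i, Measurable fun ω : Env F =>
      cdeg (D.Gr (H := H) ω) one 1 * wexp (D.Gr ω) one i (D.bb K ω) 1 :=
    fun i => m1.mul (((D.cov_bb K).wexp i).1 1)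
  rw [lintegral_const_mul _ (Finset.measurable_sum _ fun i _ => m2 i),
    lintegral_finset_sum _ (fun i _ => m2 i)]
  gcongr
  calc _ ≤ ∑ i ∈ Finset.range n, ∫⁻ ω, D.bd K ω 1 ∂D.P :=
        Finset.sum_le_sum fun i _ => D.lint_bb K i
    _ = _ := by simp

/-- degree biased mean displacement after `n` steps -/
noncomputable def disp (n : ℕ) : ℝ≥0∞ := ∫⁻ ω, cdeg (D.Gr (H := H) ω) one 1 *
      wexp (D.Gr ω) one n (fun y => ((D.Gr ω).dist 1 y : ℝ≥0∞)) 1 ∂D.P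

/-- error term -/
noncomputable def RR (K : ℕ) : ℝ≥0∞ :=
  55 * 12 * ((2 : ℝ≥0∞)⁻¹ ^ (K + 2)) +
    (∫⁻ ω in NA F (K + 1) ((2 ^ (K + 2)) ^ 9), cdeg (D.Gr (H := H) ω) one 1 ∂D.P +
    4 * ((2 : ℝ≥0∞)⁻¹ ^ (K + 2)))

theorem disp_le {K n : ℕ} (h1 : (2 ^ (K + 2)) ^ 10 ≤ n) (h2 : n ≤ (2 ^ (K + 2)) ^ 14) :
    D.disp n / n ≤ D.RR K := by
  set M : ℕ := 2 ^ (K + 2) with hM
  have hM1 : 1 ≤ M := Nat.one_le_two_pow
  have hn1 : 1 ≤ n := le_trans (Nat.one_le_pow _ _ hM1) h1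
  have hn0 : (n : ℝ≥0∞) ≠ 0 := by exact_mod_cast (by omega : n ≠ 0)
  have hnt : (n : ℝ≥0∞) ≠ ⊤ := ENNReal.natCast_ne_top n
  have hM0 : (M : ℝ≥0∞) ≠ 0 := by exact_mod_cast (by omega : M ≠ 0)
  have hMt : (M : ℝ≥0∞) ≠ ⊤ := ENNReal.natCast_ne_top M
  have hMinv : (2 : ℝ≥0∞)⁻¹ ^ (K + 2) = (M : ℝ≥0∞)⁻¹ := by
    rw [hM, ← ENNReal.inv_pow]
    push_cast
    rfl
  have hb := D.main_bound (K := K) (n := n) (t := M) (N := M ^ 9) h2 hM1
  have hdeg := D.lint_cdeg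
  have hbd := D.lint_bd K
  rw [show ((2 : ℝ≥0∞) ^ (K + 2)) = (M : ℝ≥0∞) by rw [hM]; push_cast; rfl] at hbd
  unfold disp RR
  rw [hMinv]
  refine ENNReal.div_le_of_le_mul ?_
  refine hb.trans ?_
  rw [add_mul _ _ (n : ℝ≥0∞), add_mul _ _ (n : ℝ≥0∞)]
  refine add_le_add ?_ (add_le_add ?_ ?_)
  · have e1 : ((48 : ℝ≥0∞) + 4 * (M ^ 9 : ℕ) + 2 * M) ≤ 54 * (M : ℝ≥0∞)⁻¹ * n := by
      have h3 : 48 + 4 * M ^ 9 + 2 * M ≤ 54 * M ^ 9 := by
        have h4 : 1 ≤ M ^ 9 := Nat.one_le_pow _ _ hM1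
        have h5 : M ≤ M ^ 9 := Nat.le_self_pow (by norm_num) M
        omega
      calc ((48 : ℝ≥0∞) + 4 * (M ^ 9 : ℕ) + 2 * M) ≤ 54 * (M : ℝ≥0∞) ^ 9 := by exact_mod_cast h3
        _ = 54 * ((M : ℝ≥0∞)⁻¹ * (M : ℝ≥0∞) ^ 10) := by
            rw [show (M : ℝ≥0∞) ^ 10 = M * (M : ℝ≥0∞) ^ 9 by ring, ← mul_assoc _ (M : ℝ≥0∞),
              ENNReal.inv_mul_cancel hM0 hMt, one_mul]
        _ ≤ 54 * ((M : ℝ≥0∞)⁻¹ * n) := by
            gcongr
            exact_mod_cast h1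
        _ = _ := by ring
    have e2 : ((n : ℝ≥0∞) / M) = (M : ℝ≥0∞)⁻¹ * n := by rw [div_eq_mul_inv, mul_comm]
    calc _ ≤ (54 * (M : ℝ≥0∞)⁻¹ * n + (M : ℝ≥0∞)⁻¹ * n) * 12 := by
          rw [e2]
          gcongr
      _ = _ := by ring
  · rw [mul_comm]
  · calc (n : ℝ≥0∞) * (n * ∫⁻ ω, D.bd K ω 1 ∂D.P) ≤
          n * ((M : ℝ≥0∞) ^ 14 * (4 * ((M : ℝ≥0∞) ^ 15)⁻¹)) := by
          gcongr
          exact_mod_cast h2
      _ = 4 * ((M : ℝ≥0∞) ^ 14 * ((M : ℝ≥0∞) ^ 15)⁻¹) * n := by ring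
      _ = _ := by
          congr 2
          rw [show (M : ℝ≥0∞) ^ 15 = M ^ 14 * (M : ℝ≥0∞) by ring,
            ENNReal.mul_inv (Or.inr hMt) (Or.inr hM0), ← mul_assoc,
            ENNReal.mul_inv_cancel (pow_ne_zero _ hM0) (ENNReal.pow_ne_top hMt), one_mul]

lemma half_tendsto : Tendsto (fun K : ℕ => ((2 : ℝ≥0∞)⁻¹ ^ (K + 2))) atTop (𝓝 0) := by
  have h := ENNReal.tendsto_pow_atTop_nhds_zero_of_lt_one (r := (2 : ℝ≥0∞)⁻¹) (by
    rw [ENNReal.inv_lt_one]; norm_num)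
  exact h.comp (tendsto_add_atTop_nat 2)

lemma P_NA_tendsto :
    Tendsto (fun K : ℕ => D.P (NA F (K + 1) ((2 ^ (K + 2)) ^ 9))) atTop (𝓝 0) := by
  refine tendsto_of_tendsto_of_tendsto_of_le_of_le tendsto_const_nhds half_tendsto
    (fun _ => zero_le) (fun K => ?_)
  refine (D.P_NA _ _).trans ?_
  unfold eta
  have hM0 : (2 : ℝ≥0∞) ^ (K + 2) ≠ 0 := by simp
  have hMt : (2 : ℝ≥0∞) ^ (K + 2) ≠ ⊤ := ENNReal.pow_ne_top (by norm_num)
  push_cast
  rw [← ENNReal.inv_pow, ENNReal.inv_le_inv]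
  set M : ℝ≥0∞ := (2 : ℝ≥0∞) ^ (K + 2) with hM
  have hM1 : 1 ≤ M := one_le_pow₀ (by norm_num)
  calc M ≤ M ^ 2 := le_self_pow₀ hM1 (by norm_num)
    _ = M ^ 2 * (M ^ 16 * (M ^ 16)⁻¹) := by
        rw [ENNReal.mul_inv_cancel (pow_ne_zero _ hM0) (ENNReal.pow_ne_top hMt), mul_one]
    _ = (M ^ 9) ^ 2 * (M ^ 16)⁻¹ := by ring

lemma RR_tendsto : Tendsto D.RR atTop (𝓝 0) := by
  have h1 : Tendsto (fun K : ℕ => (55 * 12 : ℝ≥0∞) * ((2 : ℝ≥0∞)⁻¹ ^ (K + 2))) atTop (𝓝 0) := by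
    have := ENNReal.Tendsto.const_mul (a := (55 * 12 : ℝ≥0∞)) half_tendsto
      (Or.inr (by norm_num))
    simpa using this
  have h3 : Tendsto (fun K : ℕ => (4 : ℝ≥0∞) * ((2 : ℝ≥0∞)⁻¹ ^ (K + 2))) atTop (𝓝 0) := by
    have := ENNReal.Tendsto.const_mul (a := (4 : ℝ≥0∞)) half_tendsto
      (Or.inr (by norm_num))
    simpa using this
  have h2 : Tendsto (fun K : ℕ =>
      ∫⁻ ω in NA F (K + 1) ((2 ^ (K + 2)) ^ 9), cdeg (D.Gr (H := H) ω) one 1 ∂D.P)
      atTop (𝓝 0) :=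
    tendsto_setLIntegral_zero (ne_top_of_le_ne_top (by norm_num) D.lint_cdeg) D.P_NA_tendsto
  have := h1.add (h2.add h3)
  rw [add_zero, add_zero] at this
  exact this

theorem disp_tendsto : Tendsto (fun n : ℕ => D.disp n / n) atTop (𝓝 0) := by
  let kk : ℕ → ℕ := fun n => Nat.log 2 n / 10 - 2
  have hk : Tendsto kk atTop atTop := by
    refine tendsto_atTop_mono' atTop (f₁ := fun n => Nat.log 2 n / 10 - 2) ?_ ?_
    · exact Eventually.of_forall fun n => le_rfl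
    · rw [tendsto_atTop_atTop]
      intro b
      refine ⟨2 ^ (10 * (b + 2)), fun n hn => ?_⟩
      have h1 : 10 * (b + 2) ≤ Nat.log 2 n :=
        (Nat.le_log_iff_pow_le (by norm_num) (by
          have : 0 < 2 ^ (10 * (b + 2)) := by positivity
          omega)).2 hn
      omega
  refine tendsto_of_tendsto_of_tendsto_of_le_of_le' tendsto_const_nhds
    (D.RR_tendsto.comp hk) (Eventually.of_forall fun _ => zero_le) ?_
  filter_upwards [eventually_ge_atTop (2 ^ 30)] with n hn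
  have hn0 : n ≠ 0 := by
    have : 0 < 2 ^ 30 := by positivity
    omega
  have h30 : 30 ≤ Nat.log 2 n := (Nat.le_log_iff_pow_le (by norm_num) hn0).2 hn
  have hlo : 2 ^ Nat.log 2 n ≤ n := Nat.pow_log_le_self 2 hn0
  have hhi : n < 2 ^ (Nat.log 2 n + 1) := Nat.lt_pow_succ_log_self (by norm_num) n
  refine D.disp_le (K := kk n) ?_ ?_
  · refine le_trans ?_ hlo
    rw [← pow_mul]
    refine Nat.pow_le_pow_right (by norm_num) ?_
    simp only [kk]
    omega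
  · refine hhi.le.trans ?_
    rw [← pow_mul]
    refine Nat.pow_le_pow_right (by norm_num) ?_
    simp only [kk]
    omega

end Dat

end Pool.Agent.H719R4
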